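import Pool.Agent.H269.GN.G074

/-!
# Expansion of the quadratic Born term with the formula for the remainder (MP_f2af60_mp)
-/

set_option autoImplicit false

open MeasureTheory Filter Topology Complex
open scoped InnerProductSpace ENNReal NNReal FourierTransform

namespace Pool.Agent.H269

theorem quad_expand2 (v K m : ℕ) (hK : 2 * v + 3 ≤ K) (R M : ℝ) (V : EV v → ℝ)
    (P : PotG v R M V) (hP : Integrable (fun ξ : EV v => ‖ξ‖ ^ (2 * m) * ‖Vf V ξ‖ ^ 2)) :
    ∃ (α : ℕ → ℝ) (ρ : ℝ → ℝ) (c : ℝ), 0 < c ∧ (α 0 = 0 → V =ᵐ[volume] 0) ∧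
      (∀ s, 0 < s → 0 ≤ ρ s) ∧
      (∀ s, 0 < s → bornD v 1 K V s =
        ∑ i ∈ Finset.range (m + 1), (-1) ^ i * α i * s ^ ((v : ℝ) - 1 / 2 - i - K) +
          (-1) ^ (m + 1) * ρ s) ∧
      Tendsto (fun s : ℝ => s ^ ((K : ℝ) - (v - 1 / 2 - m)) * ρ s) atTop (𝓝 0) ∧
      (∀ s, 1 ≤ s → c * s ^ ((v : ℝ) - 3 / 2 - m - K) *
        ∫ ξ in {ξ : EV v | ‖ξ‖ ^ 2 ≤ s}, ‖ξ‖ ^ (2 * m + 2) * ‖Vf V ξ‖ ^ 2 ≤ ρ s) ∧
      (Integrable (fun ξ : EV v => ‖ξ‖ ^ (2 * m + 1) * ‖Vf V ξ‖ ^ 2) →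
        Tendsto (fun s : ℝ => s ^ ((K : ℝ) - (v - 1 - m)) * ρ s) atTop (𝓝 0)) ∧
      ∀ s, ρ s = (1 / 2) * ((4 * Real.pi) ^ (-((2 * (v : ℝ) + 3) / 2)) *
        Real.Gamma ((K : ℝ) + 1 / 2 - v)) * s ^ (-((K : ℝ) + 1 / 2 - v)) * ∫ ξ : EV v,
          ‖Vf V ξ‖ ^ 2 * gI ((K : ℝ) + 1 / 2 - v) m (4 * Real.pi ^ 2 * ‖ξ‖ ^ 2 / s) := by
  obtain ⟨hf, hfV, -⟩ := quad_heat v R M V P
  have hKv : (2 * (v : ℝ) + 3) ≤ K := by exact_mod_cast hK
  have hv0 : (0 : ℝ) ≤ v := Nat.cast_nonneg v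
  set β : ℝ := (K : ℝ) + 1 / 2 - v with hβdef
  have hβ : 0 < β := by rw [hβdef]; linarith
  set c₀ : ℝ := (1 / 2) * ((4 * Real.pi) ^ (-((2 * (v : ℝ) + 3) / 2)) * Real.Gamma β) with hc₀def
  have hc₀ : 0 < c₀ := by
    rw [hc₀def]
    have := Real.Gamma_pos_of_pos hβ
    have hp := Real.pi_pos
    positivity
  set f : EV v → ℝ := fun ξ => ‖Vf V ξ‖ ^ 2 with hfdef
  have hf0 : ∀ ξ, 0 ≤ f ξ := fun ξ => by rw [hfdef]; positivity
  set L : EV v → ℝ := fun ξ => 4 * Real.pi ^ 2 * ‖ξ‖ ^ 2 with hLdef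
  have hL0 : ∀ ξ, 0 ≤ L ξ := fun ξ => by rw [hLdef]; positivity
  have hLm : Measurable L := by rw [hLdef]; fun_prop
  have hfm : AEStronglyMeasurable f volume := hf.aestronglyMeasurable
  -- integrability of the moments
  have hmom : ∀ i, i ≤ m → Integrable (fun ξ => L ξ ^ i * f ξ) := by
    intro i hi
    have h1 : Integrable (fun ξ : EV v => (4 * Real.pi ^ 2) ^ i *
        (f ξ + ‖ξ‖ ^ (2 * m) * f ξ)) := (hf.add hP).const_mul _
    refine h1.mono' ?_ ?_
    · exact ((hLm.pow_const i).aestronglyMeasurable).mul hfm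
    · filter_upwards with ξ
      rw [Real.norm_of_nonneg (mul_nonneg (pow_nonneg (hL0 ξ) i) (hf0 ξ))]
      have h2 : L ξ ^ i = (4 * Real.pi ^ 2) ^ i * ‖ξ‖ ^ (2 * i) := by
        rw [hLdef]; simp only; rw [mul_pow, ← pow_mul]
      have h3 : ‖ξ‖ ^ (2 * i) ≤ 1 + ‖ξ‖ ^ (2 * m) := by
        rcases le_total ‖ξ‖ 1 with h | h
        · have := pow_le_one₀ (norm_nonneg ξ) h (n := 2 * i)
          have h4 : 0 ≤ ‖ξ‖ ^ (2 * m) := by positivity
          linarith
        · have := pow_le_pow_right₀ h (show 2 * i ≤ 2 * m by omega)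
          linarith
      rw [h2]
      have h5 : ‖ξ‖ ^ (2 * i) * f ξ ≤ (1 + ‖ξ‖ ^ (2 * m)) * f ξ :=
        mul_le_mul_of_nonneg_right h3 (hf0 ξ)
      have h6 : 0 ≤ (4 * Real.pi ^ 2) ^ i := by positivity
      calc (4 * Real.pi ^ 2) ^ i * ‖ξ‖ ^ (2 * i) * f ξ
          = (4 * Real.pi ^ 2) ^ i * (‖ξ‖ ^ (2 * i) * f ξ) := by ring
        _ ≤ (4 * Real.pi ^ 2) ^ i * ((1 + ‖ξ‖ ^ (2 * m)) * f ξ) :=
            mul_le_mul_of_nonneg_left h5 h6
        _ = (4 * Real.pi ^ 2) ^ i * (f ξ + ‖ξ‖ ^ (2 * m) * f ξ) := by ring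
  -- the remainder
  set G : ℝ → EV v → ℝ := fun s ξ => f ξ * gI β m (L ξ / s) with hGdef
  have hG0 : ∀ s, 0 < s → ∀ ξ, 0 ≤ G s ξ := fun s hs ξ =>
    mul_nonneg (hf0 ξ) (gI_nonneg β hβ m _ (div_nonneg (hL0 ξ) hs.le))
  have hGm : ∀ s, AEStronglyMeasurable (G s) volume := by
    intro s
    exact hfm.mul ((gI_meas β m).comp (hLm.div_const s)).aestronglyMeasurable
  have hG1 : ∀ s, 0 < s → ∀ ξ, G s ξ ≤ cf β m * (1 / s) ^ m * (L ξ ^ m * f ξ) := by
    intro s hs ξ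
    have h1 := gI_le1 β hβ m _ (div_nonneg (hL0 ξ) hs.le)
    calc G s ξ ≤ f ξ * (cf β m * (L ξ / s) ^ m) := mul_le_mul_of_nonneg_left h1 (hf0 ξ)
      _ = cf β m * (1 / s) ^ m * (L ξ ^ m * f ξ) := by
          rw [div_eq_mul_one_div (L ξ) s, mul_pow]; ring
  have hG2 : ∀ s, 0 < s → ∀ ξ, G s ξ ≤ cf β (m + 1) * (1 / s) ^ (m + 1) *
      (L ξ ^ (m + 1) * f ξ) := by
    intro s hs ξ
    have h1 := gI_le2 β hβ m _ (div_nonneg (hL0 ξ) hs.le)
    calc G s ξ ≤ f ξ * (cf β (m + 1) * (L ξ / s) ^ (m + 1)) :=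
          mul_le_mul_of_nonneg_left h1 (hf0 ξ)
      _ = cf β (m + 1) * (1 / s) ^ (m + 1) * (L ξ ^ (m + 1) * f ξ) := by
          rw [div_eq_mul_one_div (L ξ) s, mul_pow]; ring
  have hGi : ∀ s, 0 < s → Integrable (G s) := by
    intro s hs
    refine ((hmom m le_rfl).const_mul (cf β m * (1 / s) ^ m)).mono' (hGm s) ?_
    filter_upwards with ξ
    rw [Real.norm_of_nonneg (hG0 s hs ξ)]
    exact hG1 s hs ξ
  obtain ⟨c1, hc1, hlow⟩ := gI_lower β hβ m
  refine ⟨fun i => c₀ * cf β i * (∫ ξ, L ξ ^ i * f ξ) * Bi i,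
    fun s => c₀ * s ^ (-β) * ∫ ξ, G s ξ, c₀ * c1 * (4 * Real.pi ^ 2) ^ (m + 1), ?_, ?_, ?_, ?_,
    ?_, ?_, ?_, fun s => rfl⟩
  · have hp := Real.pi_pos
    positivity
  · -- α 0 = 0
    intro h0
    have hB : 0 < Bi 0 := Bi_pos 0
    have hcf : cf β 0 = 1 := by simp [cf]
    simp only [pow_zero, one_mul, hcf, mul_one] at h0
    have h1 : ∫ ξ, f ξ = 0 := by
      rcases mul_eq_zero.mp h0 with h | h
      · rcases mul_eq_zero.mp h with h | h
        · exact absurd h hc₀.ne'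
        · exact h
      · exact absurd h hB.ne'
    have h2 : ∫ x, V x ^ 2 = 0 := by rw [hfV]; exact h1
    have hVint : Integrable (fun x => V x ^ 2) := by
      have hi : IntegrableOn (fun x => V x ^ 2) (Metric.closedBall (0 : EV v) R) := by
        refine Measure.integrableOn_of_bounded (M := M ^ 2) ?_ ?_ ?_
        · exact (isCompact_closedBall (0 : EV v) R).measure_lt_top.ne
        · exact (P.meas.pow_const 2).aestronglyMeasurable
        · filter_upwards with x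
          rw [Real.norm_of_nonneg (sq_nonneg _), ← sq_abs]
          exact pow_le_pow_left₀ (abs_nonneg _) (P.bdd x) 2
      rw [← integrableOn_iff_integrable_of_support_subset (s := Metric.closedBall (0 : EV v) R)]
      · exact hi
      · intro x hx
        by_contra hc
        exact hx (by simp [P.supp x hc])
    have h3 := (integral_eq_zero_iff_of_nonneg (fun x => sq_nonneg (V x)) hVint).mp h2
    filter_upwards [h3] with x hx
    simpa using hx
  · -- nonnegativity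
    intro s hs
    have h1 : 0 ≤ ∫ ξ, G s ξ := integral_nonneg (hG0 s hs)
    have h2 : 0 ≤ s ^ (-β) := Real.rpow_nonneg hs.le _
    exact mul_nonneg (mul_nonneg hc₀.le h2) h1
  · -- expansion
    intro s hs
    rw [quad_formula v K hK R M V P s hs]
    have e1 : ∀ ξ : EV v, ‖Vf V ξ‖ ^ 2 * ∫ x in Set.Ioo (0 : ℝ) 1,
          (s + 4 * Real.pi ^ 2 * ‖ξ‖ ^ 2 * (x * (1 - x))) ^ (-((K : ℝ) + 1 / 2 - v)) =
        s ^ (-β) * (∑ i ∈ Finset.range (m + 1), ((-1) ^ i * cf β i * (1 / s) ^ i * Bi i) *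
          (L ξ ^ i * f ξ) + (-1) ^ (m + 1) * G s ξ) := by
      intro ξ
      have h1 := q_inner_s β s (L ξ) hs (hL0 ξ)
      rw [q_inner β m (L ξ / s) (div_nonneg (hL0 ξ) hs.le)] at h1
      have h2 : ∫ x in Set.Ioo (0 : ℝ) 1,
          (s + 4 * Real.pi ^ 2 * ‖ξ‖ ^ 2 * (x * (1 - x))) ^ (-((K : ℝ) + 1 / 2 - v)) =
          ∫ x in Set.Ioo (0 : ℝ) 1, (s + L ξ * (x * (1 - x))) ^ (-β) := rfl
      rw [h2, h1]
      have h3 : ‖Vf V ξ‖ ^ 2 = f ξ := rfl
      have h4 : G s ξ = f ξ * gI β m (L ξ / s) := rfl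
      rw [h3, h4]
      have h5 : ∑ i ∈ Finset.range (m + 1), ((-1) ^ i * cf β i * (1 / s) ^ i * Bi i) *
          (L ξ ^ i * f ξ) = f ξ * ∑ i ∈ Finset.range (m + 1),
            (-1) ^ i * cf β i * (L ξ / s) ^ i * Bi i := by
        rw [Finset.mul_sum]
        apply Finset.sum_congr rfl
        intro i _
        rw [div_eq_mul_one_div (L ξ) s, mul_pow]
        ring
      rw [h5]
      ring
    rw [integral_congr_ae (Filter.Eventually.of_forall e1), integral_const_mul, integral_add,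
      integral_finsetSum, integral_const_mul]
    · have e2 : ∀ i ∈ Finset.range (m + 1),
          ∫ ξ : EV v, (-1) ^ i * cf β i * (1 / s) ^ i * Bi i * (L ξ ^ i * f ξ) =
          (-1) ^ i * cf β i * (1 / s) ^ i * Bi i * ∫ ξ : EV v, (L ξ ^ i * f ξ) :=
        fun i _ => integral_const_mul _ _
      rw [Finset.sum_congr rfl e2, mul_add, mul_add, Finset.mul_sum, Finset.mul_sum]
      congr 1
      · apply Finset.sum_congr rfl
        intro i _
        have e3 : s ^ ((v : ℝ) - 1 / 2 - i - K) = s ^ (-β) * (1 / s) ^ i := by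
          have : (v : ℝ) - 1 / 2 - i - K = -β + -(i : ℝ) := by rw [hβdef]; ring
          rw [this, Real.rpow_add hs, Real.rpow_neg hs.le (i : ℝ), Real.rpow_natCast,
            one_div, inv_pow]
        rw [e3]
        ring
      · ring
    · intro i hi
      exact (hmom i (by simpa [Nat.lt_succ_iff] using hi)).const_mul _
    · apply integrable_finsetSum
      intro i hi
      exact (hmom i (by simpa [Nat.lt_succ_iff] using hi)).const_mul _
    · exact (hGi s hs).const_mul _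
  · -- first limit
    have e1 : ∀ᶠ s : ℝ in atTop, c₀ * ∫ ξ, s ^ m * G s ξ =
        s ^ ((K : ℝ) - (v - 1 / 2 - m)) * (c₀ * s ^ (-β) * ∫ ξ, G s ξ) := by
      filter_upwards [eventually_gt_atTop 0] with s hs
      rw [integral_const_mul]
      have : s ^ ((K : ℝ) - (v - 1 / 2 - m)) * s ^ (-β) = s ^ m := by
        rw [← Real.rpow_add hs, ← Real.rpow_natCast]
        congr 1
        rw [hβdef]; ring
      calc c₀ * (s ^ m * ∫ ξ, G s ξ) = c₀ * (s ^ ((K : ℝ) - (v - 1 / 2 - m)) * s ^ (-β) *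
            ∫ ξ, G s ξ) := by rw [this]
        _ = _ := by ring
    refine Tendsto.congr' e1 ?_
    have h2 : Tendsto (fun s : ℝ => ∫ ξ, s ^ m * G s ξ) atTop (𝓝 (∫ ξ : EV v, (0 : ℝ))) := by
      apply tendsto_integral_filter_of_dominated_convergence
        (fun ξ => cf β m * (L ξ ^ m * f ξ))
      · filter_upwards with s
        exact (hGm s).const_mul _
      · filter_upwards [eventually_gt_atTop 0] with s hs
        filter_upwards with ξ
        rw [Real.norm_of_nonneg (mul_nonneg (pow_nonneg hs.le m) (hG0 s hs ξ))]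
        calc s ^ m * G s ξ ≤ s ^ m * (cf β m * (1 / s) ^ m * (L ξ ^ m * f ξ)) :=
              mul_le_mul_of_nonneg_left (hG1 s hs ξ) (pow_nonneg hs.le m)
          _ = (s * (1 / s)) ^ m * (cf β m * (L ξ ^ m * f ξ)) := by rw [mul_pow]; ring
          _ = cf β m * (L ξ ^ m * f ξ) := by rw [mul_one_div_cancel hs.ne']; simp
      · exact (hmom m le_rfl).const_mul _
      · filter_upwards with ξ
        have h3 : Tendsto (fun s : ℝ => cf β (m + 1) * (L ξ ^ (m + 1) * f ξ) * (1 / s)) atTop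
            (𝓝 (cf β (m + 1) * (L ξ ^ (m + 1) * f ξ) * 0)) := by
          apply Tendsto.const_mul
          exact (tendsto_inv_atTop_zero (𝕜 := ℝ)).congr (fun s => (one_div s).symm)
        rw [mul_zero] at h3
        apply tendsto_of_tendsto_of_tendsto_of_le_of_le' tendsto_const_nhds h3
        · filter_upwards [eventually_gt_atTop 0] with s hs
          exact mul_nonneg (pow_nonneg hs.le m) (hG0 s hs ξ)
        · filter_upwards [eventually_gt_atTop 0] with s hs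
          calc s ^ m * G s ξ ≤ s ^ m * (cf β (m + 1) * (1 / s) ^ (m + 1) *
                (L ξ ^ (m + 1) * f ξ)) :=
                mul_le_mul_of_nonneg_left (hG2 s hs ξ) (pow_nonneg hs.le m)
            _ = (s * (1 / s)) ^ m * (cf β (m + 1) * (L ξ ^ (m + 1) * f ξ) * (1 / s)) := by
                rw [mul_pow]; ring
            _ = cf β (m + 1) * (L ξ ^ (m + 1) * f ξ) * (1 / s) := by
                rw [mul_one_div_cancel hs.ne']; simp
    have h4 := h2.const_mul c₀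
    simpa using h4
  · -- lower bound
    intro s hs1
    have hs : 0 < s := by linarith
    set S : Set (EV v) := {ξ : EV v | ‖ξ‖ ^ 2 ≤ s} with hSdef
    have hSm : MeasurableSet S := measurableSet_le (by fun_prop) measurable_const
    have h1 : ∫ ξ in S, G s ξ ≤ ∫ ξ, G s ξ :=
      setIntegral_le_integral (hGi s hs) (Filter.Eventually.of_forall (hG0 s hs))
    have hint : IntegrableOn (fun ξ : EV v => ‖ξ‖ ^ (2 * m + 2) * ‖Vf V ξ‖ ^ 2) S := by
      refine ((hP.const_mul s).integrableOn (s := S)).mono' ?_ ?_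
      · exact (AEStronglyMeasurable.mul (by fun_prop) hfm).restrict
      · rw [ae_restrict_iff' hSm]
        filter_upwards with ξ hξ
        rw [Real.norm_of_nonneg (by positivity)]
        have : ‖ξ‖ ^ (2 * m + 2) = ‖ξ‖ ^ 2 * ‖ξ‖ ^ (2 * m) := by ring
        rw [this]
        have h2 : ‖ξ‖ ^ 2 ≤ s := hξ
        calc ‖ξ‖ ^ 2 * ‖ξ‖ ^ (2 * m) * ‖Vf V ξ‖ ^ 2
            = ‖ξ‖ ^ 2 * (‖ξ‖ ^ (2 * m) * ‖Vf V ξ‖ ^ 2) := by ring
          _ ≤ s * (‖ξ‖ ^ (2 * m) * ‖Vf V ξ‖ ^ 2) :=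
              mul_le_mul_of_nonneg_right h2 (by positivity)
    have h2 : ∫ ξ in S, (c1 * (4 * Real.pi ^ 2) ^ (m + 1) * (1 / s) ^ (m + 1)) *
        (‖ξ‖ ^ (2 * m + 2) * ‖Vf V ξ‖ ^ 2) ≤ ∫ ξ in S, G s ξ := by
      apply setIntegral_mono_on (hint.const_mul _) (hGi s hs).integrableOn hSm
      intro ξ hξ
      have hξ' : ‖ξ‖ ^ 2 ≤ s := hξ
      have h3 : L ξ / s ≤ 4 * Real.pi ^ 2 := by
        rw [div_le_iff₀ hs]
        exact mul_le_mul_of_nonneg_left hξ' (by positivity)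
      have h4 := hlow _ (div_nonneg (hL0 ξ) hs.le) h3
      have h5 : G s ξ = f ξ * gI β m (L ξ / s) := rfl
      rw [h5]
      refine le_trans (le_of_eq ?_) (mul_le_mul_of_nonneg_left h4 (hf0 ξ))
      have h6 : L ξ / s = 4 * Real.pi ^ 2 * (1 / s) * ‖ξ‖ ^ 2 := by
        have : L ξ = 4 * Real.pi ^ 2 * ‖ξ‖ ^ 2 := rfl
        rw [this]; ring
      have h7 : f ξ = ‖Vf V ξ‖ ^ 2 := rfl
      rw [h6, h7, mul_pow (4 * Real.pi ^ 2 * (1 / s)), mul_pow (4 * Real.pi ^ 2), ← pow_mul]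
      have h8 : 2 * (m + 1) = 2 * m + 2 := by ring
      rw [h8]
      ring
    rw [integral_const_mul] at h2
    have e3 : s ^ ((v : ℝ) - 3 / 2 - m - K) = s ^ (-β) * (1 / s) ^ (m + 1) := by
      have : (v : ℝ) - 3 / 2 - m - K = -β + -((m + 1 : ℕ) : ℝ) := by
        rw [hβdef]; push_cast; ring
      rw [this, Real.rpow_add hs, Real.rpow_neg hs.le ((m + 1 : ℕ) : ℝ), Real.rpow_natCast,
        one_div, inv_pow]
    have h6 : 0 ≤ c₀ * s ^ (-β) := mul_nonneg hc₀.le (Real.rpow_nonneg hs.le _)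
    calc c₀ * c1 * (4 * Real.pi ^ 2) ^ (m + 1) * s ^ ((v : ℝ) - 3 / 2 - m - K) *
          ∫ ξ in S, ‖ξ‖ ^ (2 * m + 2) * ‖Vf V ξ‖ ^ 2
        = c₀ * s ^ (-β) * (c1 * (4 * Real.pi ^ 2) ^ (m + 1) * (1 / s) ^ (m + 1) *
          ∫ ξ in S, ‖ξ‖ ^ (2 * m + 2) * ‖Vf V ξ‖ ^ 2) := by rw [e3]; ring
      _ ≤ c₀ * s ^ (-β) * ∫ ξ, G s ξ :=
          mul_le_mul_of_nonneg_left (h2.trans h1) h6
  · -- last clause
    intro hQ
    set C : ℝ := max (cf β m) (cf β (m + 1)) with hCdef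
    have hC0 : 0 ≤ C := (q_cf_nonneg β hβ m).trans (le_max_left _ _)
    have e1 : ∀ᶠ s : ℝ in atTop, c₀ * ∫ ξ, s ^ ((m : ℝ) + 1 / 2) * G s ξ =
        s ^ ((K : ℝ) - (v - 1 - m)) * (c₀ * s ^ (-β) * ∫ ξ, G s ξ) := by
      filter_upwards [eventually_gt_atTop 0] with s hs
      rw [integral_const_mul]
      have : s ^ ((K : ℝ) - (v - 1 - m)) * s ^ (-β) = s ^ ((m : ℝ) + 1 / 2) := by
        rw [← Real.rpow_add hs]
        congr 1
        rw [hβdef]; ring
      calc c₀ * (s ^ ((m : ℝ) + 1 / 2) * ∫ ξ, G s ξ) =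
            c₀ * (s ^ ((K : ℝ) - (v - 1 - m)) * s ^ (-β) * ∫ ξ, G s ξ) := by rw [this]
        _ = _ := by ring
    refine Tendsto.congr' e1 ?_
    -- key bound
    have hkey : ∀ s, 0 < s → ∀ ξ, G s ξ ≤ C * (L ξ / s) ^ ((m : ℝ) + 1 / 2) * f ξ := by
      intro s hs ξ
      have hu : 0 ≤ L ξ / s := div_nonneg (hL0 ξ) hs.le
      have h1 := gI_le1 β hβ m _ hu
      have h2 := gI_le2 β hβ m _ hu
      have h3 : gI β m (L ξ / s) ≤ C * (L ξ / s) ^ ((m : ℝ) + 1 / 2) := by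
        rcases le_total (L ξ / s) 1 with h | h
        · rcases eq_or_lt_of_le hu with h0 | h0
          · rw [← h0] at h2 ⊢
            have : (0 : ℝ) ^ (m + 1) = 0 := by simp
            rw [this, mul_zero] at h2
            refine h2.trans ?_
            exact mul_nonneg hC0 (Real.rpow_nonneg le_rfl _)
          · have h4 : (L ξ / s) ^ (m + 1) ≤ (L ξ / s) ^ ((m : ℝ) + 1 / 2) := by
              rw [← Real.rpow_natCast]
              apply Real.rpow_le_rpow_of_exponent_ge h0 h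
              push_cast; linarith
            refine h2.trans ?_
            exact mul_le_mul (le_max_right _ _) h4 (by positivity) hC0
        · have h4 : (L ξ / s) ^ m ≤ (L ξ / s) ^ ((m : ℝ) + 1 / 2) := by
            rw [← Real.rpow_natCast]
            apply Real.rpow_le_rpow_of_exponent_le h
            linarith
          refine h1.trans ?_
          exact mul_le_mul (le_max_left _ _) h4 (by positivity) hC0
      have h5 : G s ξ = f ξ * gI β m (L ξ / s) := rfl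
      rw [h5, mul_comm (f ξ)]
      exact mul_le_mul_of_nonneg_right h3 (hf0 ξ)
    have hLp : ∀ ξ, (L ξ) ^ ((m : ℝ) + 1 / 2) = (2 * Real.pi) ^ (2 * m + 1) *
        ‖ξ‖ ^ (2 * m + 1) := by
      intro ξ
      have h1 : L ξ = (2 * Real.pi * ‖ξ‖) ^ (2 : ℝ) := by
        rw [hLdef]; simp only
        rw [show (2 : ℝ) = ((2 : ℕ) : ℝ) by norm_num, Real.rpow_natCast]
        push_cast
        ring
      have h0 : 0 ≤ 2 * Real.pi * ‖ξ‖ := by
        have := Real.pi_pos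
        positivity
      rw [h1, ← Real.rpow_mul h0, ← mul_pow, ← Real.rpow_natCast]
      congr 1
      push_cast
      ring
    have h2 : Tendsto (fun s : ℝ => ∫ ξ, s ^ ((m : ℝ) + 1 / 2) * G s ξ) atTop
        (𝓝 (∫ ξ : EV v, (0 : ℝ))) := by
      apply tendsto_integral_filter_of_dominated_convergence
        (fun ξ => C * (2 * Real.pi) ^ (2 * m + 1) * (‖ξ‖ ^ (2 * m + 1) * ‖Vf V ξ‖ ^ 2))
      · filter_upwards with s
        exact (hGm s).const_mul _
      · filter_upwards [eventually_gt_atTop 0] with s hs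
        filter_upwards with ξ
        rw [Real.norm_of_nonneg (mul_nonneg (Real.rpow_nonneg hs.le _) (hG0 s hs ξ))]
        have hs' : 0 < s ^ ((m : ℝ) + 1 / 2) := Real.rpow_pos_of_pos hs _
        calc s ^ ((m : ℝ) + 1 / 2) * G s ξ
            ≤ s ^ ((m : ℝ) + 1 / 2) * (C * (L ξ / s) ^ ((m : ℝ) + 1 / 2) * f ξ) :=
              mul_le_mul_of_nonneg_left (hkey s hs ξ) hs'.le
          _ = C * (2 * Real.pi) ^ (2 * m + 1) * (‖ξ‖ ^ (2 * m + 1) * ‖Vf V ξ‖ ^ 2) := by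
              rw [Real.div_rpow (hL0 ξ) hs.le, hLp ξ]
              have : f ξ = ‖Vf V ξ‖ ^ 2 := rfl
              rw [this]
              field_simp
      · exact hQ.const_mul _
      · filter_upwards with ξ
        have h3 : Tendsto (fun s : ℝ => cf β (m + 1) * (L ξ ^ (m + 1) * f ξ) *
            s ^ (-(1 / 2 : ℝ))) atTop
            (𝓝 (cf β (m + 1) * (L ξ ^ (m + 1) * f ξ) * 0)) := by
          apply Tendsto.const_mul
          exact tendsto_rpow_neg_atTop (by norm_num)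
        rw [mul_zero] at h3
        apply tendsto_of_tendsto_of_tendsto_of_le_of_le' tendsto_const_nhds h3
        · filter_upwards [eventually_gt_atTop 0] with s hs
          exact mul_nonneg (Real.rpow_nonneg hs.le _) (hG0 s hs ξ)
        · filter_upwards [eventually_gt_atTop 0] with s hs
          have e4 : s ^ ((m : ℝ) + 1 / 2) * (1 / s) ^ (m + 1) = s ^ (-(1 / 2 : ℝ)) := by
            have : (1 / s) ^ (m + 1) = s ^ (-((m + 1 : ℕ) : ℝ)) := by
              rw [Real.rpow_neg hs.le, Real.rpow_natCast, one_div, inv_pow]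
            rw [this, ← Real.rpow_add hs]
            congr 1
            push_cast
            ring
          calc s ^ ((m : ℝ) + 1 / 2) * G s ξ
              ≤ s ^ ((m : ℝ) + 1 / 2) * (cf β (m + 1) * (1 / s) ^ (m + 1) *
                (L ξ ^ (m + 1) * f ξ)) :=
                mul_le_mul_of_nonneg_left (hG2 s hs ξ) (Real.rpow_nonneg hs.le _)
            _ = (s ^ ((m : ℝ) + 1 / 2) * (1 / s) ^ (m + 1)) *
                (cf β (m + 1) * (L ξ ^ (m + 1) * f ξ)) := by ring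
            _ = cf β (m + 1) * (L ξ ^ (m + 1) * f ξ) * s ^ (-(1 / 2 : ℝ)) := by
                rw [e4]; ring
    have h4 := h2.const_mul c₀
    simpa using h4

end Pool.Agent.H269
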