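import Pool.Agent.H269.GN.G109
import Pool.Agent.H269.GX.X074

/-!
# Bootstrap step with the formula for the remainder (MP_f2af60_mp)
-/

set_option autoImplicit false

open MeasureTheory Filter Topology Complex
open scoped InnerProductSpace ENNReal NNReal FourierTransform

namespace Pool.Agent.H269

theorem boot_step2 (v K m : ℕ) (hv : 1 ≤ v) (hm : m ≤ v - 1) (hK : v * (4 * v + 5) < K)
    (hK' : 2 * v + 3 ≤ K) (R M : ℝ) (V : EV v → ℝ) (P : PotG v R M V)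
    (hP : Integrable (fun ξ : EV v => ‖ξ‖ ^ (2 * m) * ‖Vf V ξ‖ ^ 2))
    (d : ℕ) (c e : ℕ → ℝ) (N C s₀ : ℝ) (hs₀ : 1 ≤ s₀)
    (hstar : ∀ s : ℝ, s₀ ≤ s →
        |∑ k ∈ Finset.Icc 1 (4 * v + 4), (-1) ^ k * bornD v k K V s -
          (∑ i ∈ Finset.range d, c i * s ^ ((i : ℝ) + 1 / 2 - K) +
            ∑ i ∈ Finset.range d, e i * s ^ i - N * s ^ (-(K : ℝ)))| ≤
          C * s ^ (-(K : ℝ) - 1 / 2)) :
    ∃ (α₀ : ℝ) (ρ : ℝ → ℝ) (c₁ : ℝ), 0 < c₁ ∧ (α₀ = 0 → V =ᵐ[volume] 0) ∧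
      (∀ s, 0 < s → 0 ≤ ρ s) ∧
      (∀ s, 1 ≤ s → c₁ * s ^ ((v : ℝ) - 3 / 2 - m - K) *
        ∫ ξ in {ξ : EV v | ‖ξ‖ ^ 2 ≤ s}, ‖ξ‖ ^ (2 * m + 2) * ‖Vf V ξ‖ ^ 2 ≤ ρ s) ∧
      (Integrable (fun ξ : EV v => ‖ξ‖ ^ (2 * m + 1) * ‖Vf V ξ‖ ^ 2) →
        Tendsto (fun s : ℝ => s ^ ((K : ℝ) - (v - 1 - m)) * ρ s) atTop (𝓝 0)) ∧
      (m = 0 → (if v - 1 < d then c (v - 1) else 0) = -α₀) ∧
      (∀ s, ρ s = (1 / 2) * ((4 * Real.pi) ^ (-((2 * (v : ℝ) + 3) / 2)) *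
        Real.Gamma ((K : ℝ) + 1 / 2 - v)) * s ^ (-((K : ℝ) + 1 / 2 - v)) * ∫ ξ : EV v,
          ‖Vf V ξ‖ ^ 2 * gI ((K : ℝ) + 1 / 2 - v) m (4 * Real.pi ^ 2 * ‖ξ‖ ^ 2 / s)) ∧
      ∃ C' s₁ : ℝ, 1 ≤ s₁ ∧ ∀ s, s₁ ≤ s →
        |(-1) ^ m * (s ^ (K : ℝ) * ρ s) + (if m = v - 1 then N else 0)| ≤
          C' * s ^ ((v : ℝ) - 3 / 2 - m) := by
  obtain ⟨α, ρ, c₁, hc₁, hα0, hρ, hexp, hlim, hlow, hhalf, hform⟩ :=
    quad_expand2 v K m hK' R M V P hP
  have hL : ((v - 1 - m : ℕ) : ℝ) = v - 1 - m := by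
    rw [Nat.cast_sub hm, Nat.cast_sub hv]; simp
  set D := max d v with hD
  have hvD : v ≤ D := le_max_right _ _
  have hdD : d ≤ D := le_max_left _ _
  set L := v - 1 - m with hLdef
  -- the sum over k ≥ 2
  have hb : ∀ k ∈ Finset.Icc 2 (4 * v + 4), ∃ b : ℕ → ℝ, (m = 0 → ∀ j, b j = 0) ∧
      App s₀ D L (fun s => s ^ (K : ℝ) * bornD v k K V s) b := fun k hk =>
    app_born v k K m hv hm (Finset.mem_Icc.mp hk).1 hK' R M V P hP s₀ hs₀ D hvD
  choose! b hb0 hb1 using hb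
  have hB := App.sum (Finset.Icc 2 (4 * v + 4))
    (fun k s => (-1 : ℝ) ^ (k + 1) * (s ^ (K : ℝ) * bornD v k K V s))
    (fun k j => (-1 : ℝ) ^ (k + 1) * b k j) (fun k hk => (hb1 k hk).smul _)
  -- the quadratic part
  have hA := App.sum (s₀ := s₀) (D := D) (L := L) (Finset.range (m + 1))
    (fun i s => ((-1 : ℝ) ^ i * α i) * s ^ ((v : ℝ) - 1 / 2 - i))
    (fun i j => ((-1 : ℝ) ^ i * α i) * (if j = v - 1 - i then 1 else 0))
    (fun i hi => by
      have hi' : i ≤ v - 1 := by have := Finset.mem_range.mp hi; omega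
      refine (App.mono s₀ D L ((v : ℝ) - 1 / 2 - i) (v - 1 - i) (by omega) ?_).smul _
      rw [Nat.cast_sub hi', Nat.cast_sub hv]; push_cast; ring)
  -- the part from hstar
  have hS : App s₀ D L (fun s => s ^ (K : ℝ) *
      (∑ k ∈ Finset.Icc 1 (4 * v + 4), (-1) ^ k * bornD v k K V s) -
      (∑ i ∈ Finset.range d, e i * s ^ ((i : ℝ) + K) - N))
      (fun j => if j < d then c j else 0) := by
    refine (App.small hs₀ D L (fun s => s ^ (K : ℝ) *
      (∑ k ∈ Finset.Icc 1 (4 * v + 4), (-1) ^ k * bornD v k K V s -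
          (∑ i ∈ Finset.range d, c i * s ^ ((i : ℝ) + 1 / 2 - K) +
            ∑ i ∈ Finset.range d, e i * s ^ i - N * s ^ (-(K : ℝ))))) C (-1 / 2)
      (fun s hs => ?_) (by have : (0:ℝ) ≤ (L : ℝ) := Nat.cast_nonneg _; linarith)).add
      (g := fun s => ∑ i ∈ Finset.range d, c i * s ^ ((i : ℝ) + 1 / 2))
      (b := fun j => if j < d then c j else 0) ?_ |>.congr (fun s hs => ?_) (fun j => by simp)
    · have hs0 : 0 < s := by linarith
      have h1 := hstar s hs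
      show |s ^ (K : ℝ) * _| ≤ _
      rw [abs_mul, abs_of_pos (Real.rpow_pos_of_pos hs0 _)]
      refine (mul_le_mul_of_nonneg_left h1 (Real.rpow_nonneg hs0.le _)).trans (le_of_eq ?_)
      calc s ^ (K : ℝ) * (C * s ^ (-(K : ℝ) - 1 / 2))
          = C * (s ^ (K : ℝ) * s ^ (-(K : ℝ) - 1 / 2)) := by ring
        _ = _ := by rw [← Real.rpow_add hs0]; congr 2; ring
    · refine ⟨0, fun s hs => ?_⟩
      have : ∑ j ∈ Finset.range D, (if j < d then c j else 0) * s ^ ((j : ℝ) + 1 / 2) =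
          ∑ i ∈ Finset.range d, c i * s ^ ((i : ℝ) + 1 / 2) := by
        symm
        rw [← Finset.sum_subset (Finset.range_mono hdD)]
        · refine Finset.sum_congr rfl (fun i hi => ?_)
          rw [if_pos (Finset.mem_range.mp hi)]
        · intro i _ hi
          rw [if_neg (by simpa using hi)]; simp
      rw [this]; simp
    · have hs0 : 0 < s := by linarith
      have e1 : s ^ (K : ℝ) * ∑ i ∈ Finset.range d, c i * s ^ ((i : ℝ) + 1 / 2 - K) =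
          ∑ i ∈ Finset.range d, c i * s ^ ((i : ℝ) + 1 / 2) := by
        rw [Finset.mul_sum]
        refine Finset.sum_congr rfl (fun i _ => ?_)
        calc s ^ (K : ℝ) * (c i * s ^ ((i : ℝ) + 1 / 2 - K))
            = c i * (s ^ (K : ℝ) * s ^ ((i : ℝ) + 1 / 2 - K)) := by ring
          _ = _ := by rw [← Real.rpow_add hs0]; congr 2; ring
      have e2 : s ^ (K : ℝ) * ∑ i ∈ Finset.range d, e i * s ^ i =
          ∑ i ∈ Finset.range d, e i * s ^ ((i : ℝ) + K) := by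
        rw [Finset.mul_sum]
        refine Finset.sum_congr rfl (fun i _ => ?_)
        rw [Real.rpow_add hs0, Real.rpow_natCast s i]; ring
      have e3 : s ^ (K : ℝ) * (N * s ^ (-(K : ℝ))) = N := by
        calc s ^ (K : ℝ) * (N * s ^ (-(K : ℝ))) = N * (s ^ (K : ℝ) * s ^ (-(K : ℝ))) := by ring
          _ = N := by rw [← Real.rpow_add hs0]; simp
      rw [← e1, ← e2]
      linear_combination e3
  have hF := (hA.add hB).add hS
  -- the function f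
  set f : ℝ → ℝ := fun s => (-1) ^ m * (s ^ (K : ℝ) * ρ s) with hf
  have hm1 : ((-1 : ℝ) ^ (m + 1)) = -(-1) ^ m := by rw [pow_succ]; ring
  have hfeq : ∀ s, s₀ ≤ s → f s - (∑ i ∈ Finset.range d, e i * s ^ ((i : ℝ) + K) - N) =
      (∑ i ∈ Finset.range (m + 1), ((-1 : ℝ) ^ i * α i) * s ^ ((v : ℝ) - 1 / 2 - i)) +
      (∑ k ∈ Finset.Icc 2 (4 * v + 4), (-1 : ℝ) ^ (k + 1) * (s ^ (K : ℝ) * bornD v k K V s)) +
      (s ^ (K : ℝ) * (∑ k ∈ Finset.Icc 1 (4 * v + 4), (-1) ^ k * bornD v k K V s) -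
      (∑ i ∈ Finset.range d, e i * s ^ ((i : ℝ) + K) - N)) := by
    intro s hs
    have hs0 : 0 < s := by linarith
    have h1 := hexp s hs0
    have e1 : s ^ (K : ℝ) * ∑ i ∈ Finset.range (m + 1),
        (-1) ^ i * α i * s ^ ((v : ℝ) - 1 / 2 - i - K) =
        ∑ i ∈ Finset.range (m + 1), ((-1 : ℝ) ^ i * α i) * s ^ ((v : ℝ) - 1 / 2 - i) := by
      rw [Finset.mul_sum]
      refine Finset.sum_congr rfl (fun i _ => ?_)
      calc s ^ (K : ℝ) * ((-1) ^ i * α i * s ^ ((v : ℝ) - 1 / 2 - i - K))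
          = (-1) ^ i * α i * (s ^ (K : ℝ) * s ^ ((v : ℝ) - 1 / 2 - i - K)) := by ring
        _ = _ := by rw [← Real.rpow_add hs0]; congr 2; ring
    have e2 : ∑ k ∈ Finset.Icc 1 (4 * v + 4), (-1) ^ k * bornD v k K V s =
        - bornD v 1 K V s + ∑ k ∈ Finset.Icc 2 (4 * v + 4), (-1) ^ k * bornD v k K V s := by
      rw [← Finset.add_sum_Ioc_eq_sum_Icc (by omega : 1 ≤ 4 * v + 4)]
      have : Finset.Ioc 1 (4 * v + 4) = Finset.Icc 2 (4 * v + 4) := by ext x; simp; omega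
      rw [this]; ring
    have e3 : (∑ k ∈ Finset.Icc 2 (4 * v + 4),
        (-1 : ℝ) ^ (k + 1) * (s ^ (K : ℝ) * bornD v k K V s)) =
        - (s ^ (K : ℝ) * ∑ k ∈ Finset.Icc 2 (4 * v + 4), (-1) ^ k * bornD v k K V s) := by
      rw [Finset.mul_sum, ← Finset.sum_neg_distrib]
      refine Finset.sum_congr rfl (fun k _ => ?_)
      rw [pow_succ]; ring
    rw [e3, e2, ← e1]
    simp only [hf]
    rw [h1, hm1]
    ring
  have hF2 := hF.congr (g := fun s => f s - (∑ i ∈ Finset.range d, e i * s ^ ((i : ℝ) + K) - N))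
    (fun s hs => (hfeq s hs).symm) (fun j => rfl)
  obtain ⟨C', hC'⟩ := hF2
  have he : ∀ s : ℝ, ∑ j ∈ Finset.range D, (if j < d then e j else 0) * s ^ ((j : ℝ) + K) =
      ∑ i ∈ Finset.range d, e i * s ^ ((i : ℝ) + K) := by
    intro s
    symm
    rw [← Finset.sum_subset (Finset.range_mono hdD)]
    · refine Finset.sum_congr rfl (fun i hi => ?_)
      rw [if_pos (Finset.mem_range.mp hi)]
    · intro i _ hi
      rw [if_neg (by simpa using hi)]; simp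
  have hlim' : Tendsto (fun s : ℝ => s ^ (-((L : ℝ) + 1 / 2)) * f s) atTop (𝓝 0) := by
    have h1 := hlim.const_mul ((-1 : ℝ) ^ m)
    rw [mul_zero] at h1
    refine h1.congr' ?_
    filter_upwards [eventually_gt_atTop (0 : ℝ)] with s hs0
    simp only [hf]
    have : s ^ ((K : ℝ) - ((v : ℝ) - 1 / 2 - m)) = s ^ (-((L : ℝ) + 1 / 2)) * s ^ (K : ℝ) := by
      rw [← Real.rpow_add hs0]; congr 1; rw [hL]; ring
    rw [this]; ring
  obtain ⟨ha, -, hfin⟩ := power_match D _ (fun j => if j < d then e j else 0) N K L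
    (by omega) f C' s₀ (fun s hs => by
      have h1 := hC' s hs
      rw [he s]
      refine (le_of_eq ?_).trans h1
      congr 1
      ring) hlim'
  refine ⟨α 0, ρ, c₁, hc₁, hα0, hρ, hlow, hhalf, ?_, hform, ?_⟩
  · intro hm0
    have h1 := ha (v - 1) (by omega) (by omega)
    have h2 : (∑ k ∈ Finset.Icc 2 (4 * v + 4), (-1 : ℝ) ^ (k + 1) * b k (v - 1)) = 0 := by
      refine Finset.sum_eq_zero (fun k hk => ?_)
      rw [hb0 k hk hm0]; simp
    rw [h2, hm0] at h1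
    simp at h1
    linarith
  · obtain ⟨C'', s₁, hs₁, h⟩ := hfin
    refine ⟨C'', s₁, hs₁, fun s hs => ?_⟩
    have h1 := h s hs
    have h2 : (L = 0) ↔ (m = v - 1) := by omega
    simp only [h2] at h1
    have h3 : (v : ℝ) - 3 / 2 - m = (L : ℝ) - 1 / 2 := by rw [hL]; ring
    rw [h3]
    exact h1

end Pool.Agent.H269
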