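import Pool.Agent.H269.GX.X074

/-!
# Two-sided bounds for the remainder integral (MP_f2af60_mp, infinitely many resonances in odd dimension)
-/

set_option autoImplicit false

open MeasureTheory Filter Topology Complex
open scoped InnerProductSpace ENNReal NNReal

namespace Pool.Agent.H269


theorem aux_cf_pos (β : ℝ) (hβ : 0 < β) (i : ℕ) : 0 < cf β i := by
  unfold cf
  apply div_pos
  · apply Finset.prod_pos
    intro j _
    positivity
  · positivity

theorem aux_rm_succ (β : ℝ) (k : ℕ) (u : ℝ) :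
    rm β (k + 1) u + rm β k u = cf β (k + 1) * u ^ (k + 1) := by
  unfold rm
  rw [Finset.sum_range_succ _ (k + 1)]
  have h1 : ((-1 : ℝ) ^ (k + 1)) * ((-1 : ℝ) ^ (k + 1)) = 1 := by
    rw [← mul_pow]; norm_num
  rw [pow_succ (-1 : ℝ) (k + 1)]
  linear_combination (cf β (k + 1) * u ^ (k + 1)) * h1

theorem aux_rm_lower (β : ℝ) (hβ : 0 < β) (m : ℕ) :
    ∃ c : ℝ, 0 < c ∧ ∀ u : ℝ, 3 / 16 ≤ u → c * u ^ m ≤ rm β m u := by
  rcases m with _ | k
  · refine ⟨1 - (19 / 16 : ℝ) ^ (-β), ?_, ?_⟩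
    · have : (19 / 16 : ℝ) ^ (-β) < 1 :=
        Real.rpow_lt_one_of_one_lt_of_neg (by norm_num) (by linarith)
      linarith
    · intro u hu
      have h0 : rm β 0 u = 1 - (1 + u) ^ (-β) := by
        unfold rm cf
        simp
      have h1 : (1 + u) ^ (-β) ≤ (19 / 16 : ℝ) ^ (-β) :=
        Real.rpow_le_rpow_of_nonpos (by norm_num) (by linarith) (by linarith)
      rw [h0, pow_zero, mul_one]
      linarith
  · have hk := aux_cf_pos β hβ k
    have hk1 := aux_cf_pos β hβ (k + 1)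
    obtain ⟨hk0, -⟩ := rm_bounds β hβ k
    obtain ⟨-, hL⟩ := rm_bounds β hβ (k + 1)
    set U : ℝ := 2 * cf β k / cf β (k + 1) with hU
    have hUpos : 0 < U := by positivity
    obtain ⟨c, hc, hcu⟩ := hL (max U 1) (le_trans zero_le_one (le_max_right _ _))
    refine ⟨min (cf β (k + 1) / 2) (c * (3 / 16)), lt_min (by positivity) (by positivity), ?_⟩
    intro u hu
    have hu0 : 0 < u := by linarith
    have hup : 0 < u ^ (k + 1) := by positivity
    rcases le_total (max U 1) u with h | h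
    · have hUu : U ≤ u := le_trans (le_max_left _ _) h
      have h2 : 2 * cf β k ≤ cf β (k + 1) * u := by
        rw [hU, div_le_iff₀ hk1] at hUu
        linarith
      have h3 : rm β k u ≤ cf β k * u ^ k := (hk0 u hu0.le).2.1
      have h4 := aux_rm_succ β k u
      have h5 : cf β k * u ^ k ≤ (cf β (k + 1) / 2) * u ^ (k + 1) := by
        rw [pow_succ]
        have : 0 < u ^ k := by positivity
        nlinarith
      calc min (cf β (k + 1) / 2) (c * (3 / 16)) * u ^ (k + 1)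
          ≤ (cf β (k + 1) / 2) * u ^ (k + 1) :=
            mul_le_mul_of_nonneg_right (min_le_left _ _) hup.le
        _ ≤ rm β (k + 1) u := by linarith
    · have h3 := hcu u hu0.le h
      calc min (cf β (k + 1) / 2) (c * (3 / 16)) * u ^ (k + 1)
          ≤ (c * (3 / 16)) * u ^ (k + 1) :=
            mul_le_mul_of_nonneg_right (min_le_right _ _) hup.le
        _ ≤ c * u ^ (k + 1 + 1) := by
            rw [pow_succ u (k + 1)]
            have := mul_le_mul_of_nonneg_left hu (mul_pos hc hup).le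
            linarith
        _ ≤ rm β (k + 1) u := h3

theorem aux_gI_lower (β : ℝ) (hβ : 0 < β) (m : ℕ) (c : ℝ) (hc : 0 < c)
    (h : ∀ u : ℝ, 3 / 16 ≤ u → c * u ^ m ≤ rm β m u) (a : ℝ) (ha : 1 ≤ a) :
    (1 / 2) * (c * (3 / 16 * a) ^ m) ≤ gI β m a := by
  have ha0 : 0 ≤ a := by linarith
  have hint : IntegrableOn (fun x : ℝ => rm β m (a * (x * (1 - x)))) (Set.Ioo (0 : ℝ) 1) :=
    q_int_of_cont _ (q_rm_cont β m a ha0)
  have hsub : Set.Ioo (1 / 4 : ℝ) (3 / 4) ⊆ Set.Ioo (0 : ℝ) 1 := by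
    intro x hx
    exact ⟨by linarith [hx.1], by linarith [hx.2]⟩
  have h1 : ∫ x in Set.Ioo (1 / 4 : ℝ) (3 / 4), rm β m (a * (x * (1 - x))) ≤ gI β m a := by
    unfold gI
    apply setIntegral_mono_set hint
    · filter_upwards [ae_restrict_mem measurableSet_Ioo] with x hx
      have : 0 ≤ x * (1 - x) := mul_nonneg hx.1.le (by linarith [hx.2])
      exact ((rm_bounds β hβ m).1 _ (mul_nonneg ha0 this)).1
    · exact hsub.eventuallyLE
  have h2 : ∫ x in Set.Ioo (1 / 4 : ℝ) (3 / 4), c * (3 / 16 * a) ^ m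
      ≤ ∫ x in Set.Ioo (1 / 4 : ℝ) (3 / 4), rm β m (a * (x * (1 - x))) := by
    apply setIntegral_mono_on
    · exact integrableOn_const (by simp)
    · exact hint.mono_set hsub
    · exact measurableSet_Ioo
    · intro x hx
      have hx1 : 3 / 16 ≤ x * (1 - x) := by
        nlinarith [hx.1, hx.2]
      have hx2 : 3 / 16 * a ≤ a * (x * (1 - x)) := by nlinarith
      have hx3 : 3 / 16 ≤ a * (x * (1 - x)) := by nlinarith
      refine le_trans ?_ (h _ hx3)
      apply mul_le_mul_of_nonneg_left _ hc.le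
      exact pow_le_pow_left₀ (by positivity) hx2 m
  have h3 : ∫ x in Set.Ioo (1 / 4 : ℝ) (3 / 4), c * (3 / 16 * a) ^ m
      = (1 / 2) * (c * (3 / 16 * a) ^ m) := by
    rw [setIntegral_const]
    simp only [smul_eq_mul]
    congr 1
    rw [Measure.real, Real.volume_Ioo, ENNReal.toReal_ofReal (by norm_num)]
    norm_num
  linarith


theorem gI_two_sided (β : ℝ) (hβ : 0 < β) (m : ℕ) : ∃ c C : ℝ, 0 < c ∧ 0 < C ∧
    ∀ a : ℝ, 0 ≤ a → c * min (a ^ m) (a ^ (m + 1)) ≤ gI β m a ∧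
      gI β m a ≤ C * min (a ^ m) (a ^ (m + 1)) := by
  obtain ⟨c1, hc1, h1⟩ := gI_lower β hβ m
  obtain ⟨c2, hc2, h2⟩ := aux_rm_lower β hβ m
  have hm := aux_cf_pos β hβ m
  have hm1 := aux_cf_pos β hβ (m + 1)
  have hc3 : 0 < (1 / 2) * (c2 * (3 / 16 : ℝ) ^ m) := by positivity
  refine ⟨min c1 ((1 / 2) * (c2 * (3 / 16) ^ m)), max (cf β m) (cf β (m + 1)),
    lt_min hc1 hc3, lt_of_lt_of_le hm (le_max_left _ _), ?_⟩
  intro a ha
  have hp0 : 0 ≤ a ^ m := pow_nonneg ha m
  have hp1 : 0 ≤ a ^ (m + 1) := pow_nonneg ha (m + 1)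
  have hmin0 : 0 ≤ min (a ^ m) (a ^ (m + 1)) := le_min hp0 hp1
  constructor
  · rcases le_total a 1 with h | h
    · have hpi : a ≤ 4 * Real.pi ^ 2 := by
        have := Real.pi_gt_three
        nlinarith
      calc min c1 ((1 / 2) * (c2 * (3 / 16) ^ m)) * min (a ^ m) (a ^ (m + 1))
          ≤ c1 * min (a ^ m) (a ^ (m + 1)) :=
            mul_le_mul_of_nonneg_right (min_le_left _ _) hmin0
        _ ≤ c1 * a ^ (m + 1) := mul_le_mul_of_nonneg_left (min_le_right _ _) hc1.le
        _ ≤ gI β m a := h1 a ha hpi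
    · have h3 := aux_gI_lower β hβ m c2 hc2 h2 a h
      calc min c1 ((1 / 2) * (c2 * (3 / 16) ^ m)) * min (a ^ m) (a ^ (m + 1))
          ≤ ((1 / 2) * (c2 * (3 / 16) ^ m)) * min (a ^ m) (a ^ (m + 1)) :=
            mul_le_mul_of_nonneg_right (min_le_right _ _) hmin0
        _ ≤ ((1 / 2) * (c2 * (3 / 16) ^ m)) * a ^ m :=
            mul_le_mul_of_nonneg_left (min_le_left _ _) hc3.le
        _ = (1 / 2) * (c2 * (3 / 16 * a) ^ m) := by rw [mul_pow]; ring
        _ ≤ gI β m a := h3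
  · rw [mul_min_of_nonneg _ _ (le_trans hm.le (le_max_left _ _))]
    apply le_min
    · exact le_trans (gI_le1 β hβ m a ha) (mul_le_mul_of_nonneg_right (le_max_left _ _) hp0)
    · exact le_trans (gI_le2 β hβ m a ha) (mul_le_mul_of_nonneg_right (le_max_right _ _) hp1)

end Pool.Agent.H269
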