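import Pool.Agent.H269.DefsG2

/-!
# Logarithmic averages (MP_f2af60_mp, infinitely many resonances in odd dimension)
-/

set_option autoImplicit false

open MeasureTheory Filter Topology Complex
open scoped InnerProductSpace ENNReal NNReal

namespace Pool.Agent.H269


lemma la_small (g : ℝ → ℝ) (hg : Measurable g) (C : ℝ)
    (h0 : ∀ u : ℝ, 0 < u → 0 ≤ g u)
    (hA : ∀ u : ℝ, 0 < u → g u ≤ C * u ^ (1 / 2 : ℝ)) (a : ℝ) (ha : 0 ≤ a) :
    IntegrableOn (fun u => g u / u) (Set.Ioc 0 a) ∧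
      ∫ u in Set.Ioc 0 a, g u / u ≤ 2 * C * a ^ (1 / 2 : ℝ) := by
  have hI : IntegrableOn (fun u : ℝ => C * u ^ (-(1 / 2) : ℝ)) (Set.Ioc 0 a) := by
    have := (intervalIntegral.intervalIntegrable_rpow' (a := 0) (b := a)
      (by norm_num : (-1 : ℝ) < -(1 / 2))).1
    exact this.const_mul C
  have hle : ∀ u ∈ Set.Ioc (0 : ℝ) a, g u / u ≤ C * u ^ (-(1 / 2) : ℝ) := by
    intro u hu
    have hu0 : 0 < u := hu.1
    rw [div_le_iff₀ hu0]
    have : C * u ^ (-(1 / 2) : ℝ) * u = C * u ^ (1 / 2 : ℝ) := by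
      rw [mul_assoc]
      congr 1
      nth_rewrite 2 [← Real.rpow_one u]
      rw [← Real.rpow_add hu0]
      norm_num
    rw [this]
    exact hA u hu0
  have hint : IntegrableOn (fun u => g u / u) (Set.Ioc 0 a) := by
    refine Integrable.mono' hI (hg.div measurable_id).aestronglyMeasurable ?_
    filter_upwards [ae_restrict_mem measurableSet_Ioc] with u hu
    rw [Real.norm_of_nonneg (div_nonneg (h0 u hu.1) hu.1.le)]
    exact hle u hu
  refine ⟨hint, ?_⟩
  calc ∫ u in Set.Ioc 0 a, g u / u ≤ ∫ u in Set.Ioc 0 a, C * u ^ (-(1 / 2) : ℝ) :=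
        setIntegral_mono_on hint hI measurableSet_Ioc hle
    _ = 2 * C * a ^ (1 / 2 : ℝ) := by
        rw [integral_const_mul, ← intervalIntegral.integral_of_le ha,
          integral_rpow (Or.inl (by norm_num))]
        rw [Real.zero_rpow (by norm_num)]
        norm_num
        ring

lemma la_large (g : ℝ → ℝ) (hg : Measurable g) (C : ℝ)
    (h0 : ∀ u : ℝ, 0 < u → 0 ≤ g u)
    (hB : ∀ u : ℝ, 0 < u → g u ≤ C * u ^ (-(1 / 2) : ℝ)) (b : ℝ) (hb : 0 < b) :
    IntegrableOn (fun u => g u / u) (Set.Ioi b) ∧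
      ∫ u in Set.Ioi b, g u / u ≤ 2 * C * b ^ (-(1 / 2) : ℝ) := by
  have hI : IntegrableOn (fun u : ℝ => C * u ^ (-(3 / 2) : ℝ)) (Set.Ioi b) := by
    have := integrableOn_Ioi_rpow_of_lt (by norm_num : (-(3 / 2) : ℝ) < -1) hb
    exact this.const_mul C
  have hle : ∀ u ∈ Set.Ioi b, g u / u ≤ C * u ^ (-(3 / 2) : ℝ) := by
    intro u hu
    have hu0 : 0 < u := hb.trans hu
    rw [div_le_iff₀ hu0]
    have : C * u ^ (-(3 / 2) : ℝ) * u = C * u ^ (-(1 / 2) : ℝ) := by
      rw [mul_assoc]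
      congr 1
      nth_rewrite 2 [← Real.rpow_one u]
      rw [← Real.rpow_add hu0]
      norm_num
    rw [this]
    exact hB u hu0
  have hint : IntegrableOn (fun u => g u / u) (Set.Ioi b) := by
    refine Integrable.mono' hI (hg.div measurable_id).aestronglyMeasurable ?_
    filter_upwards [ae_restrict_mem measurableSet_Ioi] with u hu
    have hu0 : 0 < u := hb.trans hu
    rw [Real.norm_of_nonneg (div_nonneg (h0 u hu0) hu0.le)]
    exact hle u hu
  refine ⟨hint, ?_⟩
  calc ∫ u in Set.Ioi b, g u / u ≤ ∫ u in Set.Ioi b, C * u ^ (-(3 / 2) : ℝ) :=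
        setIntegral_mono_on hint hI measurableSet_Ioi hle
    _ = 2 * C * b ^ (-(1 / 2) : ℝ) := by
        rw [integral_const_mul, integral_Ioi_rpow_of_lt (by norm_num) hb]
        norm_num
        ring

lemma la_subst (g : ℝ → ℝ) (S y : ℝ) (hS : 1 ≤ S) (hy : 0 < y) :
    ∫ s in Set.Ioc 1 S, g (y / s) / s = ∫ u in Set.Ioc (y / S) y, g u / u := by
  have hS0 : 0 < S := by linarith
  have himg : (fun s : ℝ => y / s) '' (Set.Ioc 1 S) = Set.Ico (y / S) y := by
    ext u
    simp only [Set.mem_image, Set.mem_Ioc, Set.mem_Ico]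
    constructor
    · rintro ⟨s, ⟨h1, h2⟩, rfl⟩
      have hs : 0 < s := by linarith
      constructor
      · exact div_le_div_of_nonneg_left hy.le hs h2
      · rw [div_lt_iff₀ hs]; nlinarith
    · rintro ⟨h1, h2⟩
      have hu : 0 < u := lt_of_lt_of_le (div_pos hy hS0) h1
      refine ⟨y / u, ⟨?_, ?_⟩, ?_⟩
      · rw [lt_div_iff₀ hu]; linarith
      · rw [div_le_iff₀ hu]
        rw [div_le_iff₀ hS0] at h1
        linarith
      · field_simp
  have hder : ∀ s ∈ Set.Ioc (1 : ℝ) S,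
      HasDerivWithinAt (fun s : ℝ => y / s) (-y / s ^ 2) (Set.Ioc 1 S) s := by
    intro s hs
    have hs0 : s ≠ 0 := by have := hs.1; positivity
    have := (hasDerivAt_inv hs0).const_mul y
    refine (this.congr_deriv ?_).hasDerivWithinAt.congr_of_mem ?_ hs
    · field_simp
    · intro t ht
      rw [div_eq_mul_inv]
  have hinj : Set.InjOn (fun s : ℝ => y / s) (Set.Ioc 1 S) := by
    intro s hs t ht hst
    have hs0 : 0 < s := by linarith [hs.1]
    have ht0 : 0 < t := by linarith [ht.1]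
    simp only at hst
    rw [div_eq_div_iff hs0.ne' ht0.ne'] at hst
    exact (mul_left_cancel₀ hy.ne' hst).symm
  have key := integral_image_eq_integral_abs_deriv_smul measurableSet_Ioc hder hinj
    (fun u => g u / u)
  rw [himg, integral_Ico_eq_integral_Ioo, ← integral_Ioc_eq_integral_Ioo] at key
  rw [key]
  refine setIntegral_congr_fun measurableSet_Ioc ?_
  intro s hs
  have hs0 : 0 < s := by linarith [hs.1]
  simp only [smul_eq_mul]
  rw [abs_of_nonpos (by apply div_nonpos_of_nonpos_of_nonneg; linarith; positivity)]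
  field_simp

lemma la_k_small (u : ℝ) (hu : 0 < u) (h : u ≤ 1) :
    min (u ^ (1 / 2 : ℝ)) (u ^ (-(1 / 2) : ℝ)) = u ^ (1 / 2 : ℝ) := by
  apply min_eq_left
  calc u ^ (1 / 2 : ℝ) ≤ 1 := Real.rpow_le_one hu.le h (by norm_num)
    _ ≤ _ := Real.one_le_rpow_of_pos_of_le_one_of_nonpos hu h (by norm_num)

lemma la_k_large (u : ℝ) (h : 1 ≤ u) :
    min (u ^ (1 / 2 : ℝ)) (u ^ (-(1 / 2) : ℝ)) = u ^ (-(1 / 2) : ℝ) := by
  apply min_eq_right
  calc u ^ (-(1 / 2) : ℝ) ≤ 1 := Real.rpow_le_one_of_one_le_of_nonpos h (by norm_num)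
    _ ≤ _ := Real.one_le_rpow h (by norm_num)

lemma la_pointwise (g : ℝ → ℝ) (hg : Measurable g) (c C : ℝ) (hc : 0 < c)
    (h1 : ∀ u : ℝ, 0 < u → c * min (u ^ (1 / 2 : ℝ)) (u ^ (-(1 / 2) : ℝ)) ≤ g u)
    (h2 : ∀ u : ℝ, 0 < u → g u ≤ C * min (u ^ (1 / 2 : ℝ)) (u ^ (-(1 / 2) : ℝ)))
    (hC : 0 < C) (h0 : ∀ u : ℝ, 0 < u → 0 ≤ g u)
    (hA : ∀ u : ℝ, 0 < u → g u ≤ C * u ^ (1 / 2 : ℝ))
    (hB : ∀ u : ℝ, 0 < u → g u ≤ C * u ^ (-(1 / 2) : ℝ))
    (hG : IntegrableOn (fun u => g u / u) (Set.Ioi 0))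
    (S y : ℝ) (hS : 1 ≤ S) (hy : 0 < y) :
    |(∫ s in Set.Ioc 1 S, g (y / s) / s) -
      (if 1 < y ∧ y ≤ S then ∫ u in Set.Ioi (0 : ℝ), g u / u else 0)| ≤
      (2 * C / c) * (g (y / S) + g y) := by
  have hS0 : 0 < S := by linarith
  rw [la_subst g S y hS hy]
  have hyS : 0 < y / S := div_pos hy hS0
  have hyS' : y / S ≤ y := div_le_self hy.le hS
  have hnn : ∀ A : Set ℝ, MeasurableSet A → A ⊆ Set.Ioi 0 → 0 ≤ ∫ u in A, g u / u := by
    intro A hA' hsub
    apply setIntegral_nonneg hA'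
    intro u hu
    exact div_nonneg (h0 u (hsub hu)) (le_of_lt (hsub hu))
  have hmono : ∀ A B : Set ℝ, MeasurableSet B → A ⊆ B → B ⊆ Set.Ioi 0 →
      ∫ u in A, g u / u ≤ ∫ u in B, g u / u := by
    intro A B hB' hAB hB0
    refine setIntegral_mono_set (hG.mono_set hB0) ?_ hAB.eventuallyLE
    filter_upwards [ae_restrict_mem hB'] with u hu
    exact div_nonneg (h0 u (hB0 hu)) (le_of_lt (hB0 hu))
  have hsub1 : Set.Ioc (y / S) y ⊆ Set.Ioi 0 := fun u hu => hyS.trans hu.1
  have hΓ0 : 0 ≤ ∫ u in Set.Ioc (y / S) y, g u / u := hnn _ measurableSet_Ioc hsub1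
  have hg1 : c * min ((y / S) ^ (1 / 2 : ℝ)) ((y / S) ^ (-(1 / 2) : ℝ)) ≤ g (y / S) := h1 _ hyS
  have hg2 := h1 y hy
  have hgy := h0 y hy
  have hgyS := h0 _ hyS
  have hCc : 0 < 2 * C / c := by positivity
  by_cases hy1 : y ≤ 1
  · rw [if_neg (by rintro ⟨h, _⟩; linarith), sub_zero, abs_of_nonneg hΓ0]
    rw [la_k_small y hy hy1] at hg2
    calc ∫ u in Set.Ioc (y / S) y, g u / u ≤ ∫ u in Set.Ioc 0 y, g u / u :=
          hmono _ _ measurableSet_Ioc (fun u hu => ⟨hyS.trans hu.1, hu.2⟩) (fun u hu => hu.1)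
      _ ≤ 2 * C * y ^ (1 / 2 : ℝ) := (la_small g hg C h0 hA y hy.le).2
      _ = (2 * C / c) * (c * y ^ (1 / 2 : ℝ)) := by field_simp
      _ ≤ (2 * C / c) * (g (y / S) + g y) := by
          apply mul_le_mul_of_nonneg_left _ hCc.le
          linarith
  · push Not at hy1
    by_cases hyS1 : y ≤ S
    · rw [if_pos ⟨hy1, hyS1⟩]
      have hyS2 : y / S ≤ 1 := by rw [div_le_one hS0]; exact hyS1
      rw [la_k_large y hy1.le] at hg2
      rw [la_k_small _ hyS hyS2] at hg1
      have hsplit : ∫ u in Set.Ioi (0 : ℝ), g u / u =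
          (∫ u in Set.Ioc 0 (y / S), g u / u) + (∫ u in Set.Ioc (y / S) y, g u / u) +
            ∫ u in Set.Ioi y, g u / u := by
        have e1 : Set.Ioi (0 : ℝ) = Set.Ioc 0 (y / S) ∪ Set.Ioi (y / S) :=
          (Set.Ioc_union_Ioi_eq_Ioi hyS.le).symm
        have e2 : Set.Ioi (y / S) = Set.Ioc (y / S) y ∪ Set.Ioi y :=
          (Set.Ioc_union_Ioi_eq_Ioi hyS').symm
        rw [e1, setIntegral_union _ measurableSet_Ioi
          (hG.mono_set (fun u hu => hu.1)) (hG.mono_set (fun u hu => hyS.trans hu)), e2,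
          setIntegral_union _ measurableSet_Ioi
          (hG.mono_set hsub1) (hG.mono_set (fun u hu => hy.trans hu)), add_assoc]
        · exact Set.Ioc_disjoint_Ioi le_rfl
        · exact Set.Ioc_disjoint_Ioi le_rfl
      rw [hsplit]
      have e3 : (∫ u in Set.Ioc (y / S) y, g u / u) -
          ((∫ u in Set.Ioc 0 (y / S), g u / u) + (∫ u in Set.Ioc (y / S) y, g u / u) +
            ∫ u in Set.Ioi y, g u / u) =
          -((∫ u in Set.Ioc 0 (y / S), g u / u) + ∫ u in Set.Ioi y, g u / u) := by ring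
      rw [e3, abs_neg, abs_of_nonneg (add_nonneg
        (hnn _ measurableSet_Ioc (fun u hu => hu.1))
        (hnn _ measurableSet_Ioi (fun u hu => hy.trans hu)))]
      have e4 := (la_small g hg C h0 hA (y / S) hyS.le).2
      have e5 := (la_large g hg C h0 hB y hy).2
      calc _ ≤ 2 * C * (y / S) ^ (1 / 2 : ℝ) + 2 * C * y ^ (-(1 / 2) : ℝ) := add_le_add e4 e5
        _ = (2 * C / c) * (c * (y / S) ^ (1 / 2 : ℝ) + c * y ^ (-(1 / 2) : ℝ)) := by
            field_simp
        _ ≤ (2 * C / c) * (g (y / S) + g y) := by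
            apply mul_le_mul_of_nonneg_left _ hCc.le
            linarith
    · push Not at hyS1
      rw [if_neg (by rintro ⟨_, h⟩; linarith), sub_zero, abs_of_nonneg hΓ0]
      have hyS2 : 1 ≤ y / S := by rw [le_div_iff₀ hS0]; linarith
      rw [la_k_large _ hyS2] at hg1
      calc ∫ u in Set.Ioc (y / S) y, g u / u ≤ ∫ u in Set.Ioi (y / S), g u / u :=
            hmono _ _ measurableSet_Ioi (fun u hu => hu.1) (fun u hu => hyS.trans hu)
        _ ≤ 2 * C * (y / S) ^ (-(1 / 2) : ℝ) := (la_large g hg C h0 hB _ hyS).2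
        _ = (2 * C / c) * (c * (y / S) ^ (-(1 / 2) : ℝ)) := by field_simp
        _ ≤ (2 * C / c) * (g (y / S) + g y) := by
            apply mul_le_mul_of_nonneg_left _ hCc.le
            linarith

lemma la_cesaro (f : ℝ → ℝ) (N : ℝ)
    (hf : ∀ S : ℝ, 1 ≤ S → IntegrableOn (fun s => f s / s) (Set.Ioc 1 S))
    (hN : Tendsto f atTop (𝓝 N)) :
    Tendsto (fun S : ℝ => (∫ s in Set.Ioc 1 S, f s / s) / Real.log S) atTop (𝓝 N) := by
  rw [Metric.tendsto_atTop]
  intro ε hε
  rw [Metric.tendsto_atTop] at hN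
  obtain ⟨S0, hS0⟩ := hN (ε / 2) (by positivity)
  set T := max S0 1 with hT
  have hT1 : 1 ≤ T := le_max_right _ _
  have hinv : ∀ S : ℝ, 1 ≤ S → IntegrableOn (fun s : ℝ => s⁻¹) (Set.Ioc 1 S) := by
    intro S hS
    refine ContinuousOn.integrableOn_Icc ?_ |>.mono_set Set.Ioc_subset_Icc_self
    refine ContinuousOn.inv₀ continuousOn_id ?_
    intro x hx
    have hx1 : (1 : ℝ) ≤ x := hx.1
    have hx0 : (0 : ℝ) < x := by linarith
    exact hx0.ne'
  have hlogint : ∀ S : ℝ, 1 ≤ S → ∫ s in Set.Ioc (1 : ℝ) S, s⁻¹ = Real.log S := by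
    intro S hS
    rw [← intervalIntegral.integral_of_le hS, integral_inv_of_pos one_pos (by linarith), div_one]
  set A := ∫ s in Set.Ioc 1 T, |f s / s - N * s⁻¹| with hA
  have hA0 : 0 ≤ A := integral_nonneg (fun _ => abs_nonneg _)
  have hev : ∀ᶠ S : ℝ in atTop, A / (ε / 2) < Real.log S :=
    Real.tendsto_log_atTop.eventually_gt_atTop _
  obtain ⟨S1, hS1⟩ := eventually_atTop.1 hev
  refine ⟨max (max S1 T) 2, ?_⟩
  intro S hS
  have hST : T ≤ S := le_trans (le_trans (le_max_right _ _) (le_max_left _ _)) hS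
  have hSS1 : S1 ≤ S := le_trans (le_trans (le_max_left _ _) (le_max_left _ _)) hS
  have hS2 : 2 ≤ S := le_trans (le_max_right _ _) hS
  have hS1' : 1 ≤ S := by linarith
  have hlog : 0 < Real.log S := Real.log_pos (by linarith)
  have hd : IntegrableOn (fun s => f s / s - N * s⁻¹) (Set.Ioc 1 S) :=
    (hf S hS1').sub ((hinv S hS1').const_mul N)
  have hda : IntegrableOn (fun s => |f s / s - N * s⁻¹|) (Set.Ioc 1 S) := hd.abs
  have hic : IntegrableOn (fun s : ℝ => (ε / 2) * s⁻¹) (Set.Ioc 1 S) :=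
    (hinv S hS1').const_mul _
  have key : |(∫ s in Set.Ioc 1 S, f s / s) - N * Real.log S| ≤ A + (ε / 2) * Real.log S := by
    rw [← hlogint S hS1', ← integral_const_mul, ← integral_sub (hf S hS1')
      ((hinv S hS1').const_mul N)]
    calc |∫ s in Set.Ioc 1 S, (f s / s - N * s⁻¹)|
        ≤ ∫ s in Set.Ioc 1 S, |f s / s - N * s⁻¹| := abs_integral_le_integral_abs
      _ = A + ∫ s in Set.Ioc T S, |f s / s - N * s⁻¹| := by
          rw [hA, ← Set.Ioc_union_Ioc_eq_Ioc hT1 hST, setIntegral_union _ measurableSet_Ioc]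
          · exact hda.mono_set (Set.Ioc_subset_Ioc_right hST)
          · exact hda.mono_set (Set.Ioc_subset_Ioc_left hT1)
          · rw [Set.disjoint_left]
            intro z hz hz'
            exact absurd hz'.1 (not_lt.2 hz.2)
      _ ≤ A + ∫ s in Set.Ioc T S, (ε / 2) * s⁻¹ := by
          refine add_le_add le_rfl ?_
          refine setIntegral_mono_on (hda.mono_set (Set.Ioc_subset_Ioc_left hT1))
            (hic.mono_set (Set.Ioc_subset_Ioc_left hT1))
            measurableSet_Ioc ?_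
          intro s hs
          have hs1 : T < s := hs.1
          have hs0 : 0 < s := by linarith
          have := hS0 s (le_trans (le_max_left _ _) hs1.le)
          rw [Real.dist_eq] at this
          have e : f s / s - N * s⁻¹ = (f s - N) * s⁻¹ := by
            rw [div_eq_mul_inv]; ring
          rw [e, abs_mul, abs_of_pos (inv_pos.2 hs0)]
          exact mul_le_mul_of_nonneg_right this.le (inv_pos.2 hs0).le
      _ ≤ A + ∫ s in Set.Ioc 1 S, (ε / 2) * s⁻¹ := by
          have hmm : ∫ s in Set.Ioc T S, (ε / 2) * s⁻¹ ≤ ∫ s in Set.Ioc 1 S, (ε / 2) * s⁻¹ := by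
            refine setIntegral_mono_set hic ?_
              (Set.Ioc_subset_Ioc_left hT1).eventuallyLE
            filter_upwards [ae_restrict_mem measurableSet_Ioc] with s hs
            have hs1 : (1 : ℝ) < s := hs.1
            have hs0 : 0 < s := by linarith
            have : 0 < (ε / 2) * s⁻¹ := by positivity
            exact this.le
          linarith
      _ = A + (ε / 2) * ∫ s in Set.Ioc 1 S, s⁻¹ := by rw [integral_const_mul]
  rw [Real.dist_eq]
  have e : (∫ s in Set.Ioc 1 S, f s / s) / Real.log S - N =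
      ((∫ s in Set.Ioc 1 S, f s / s) - N * Real.log S) / Real.log S := by
    field_simp
  rw [e, abs_div, abs_of_pos hlog, div_lt_iff₀ hlog]
  have h3 := hS1 S hSS1
  rw [div_lt_iff₀ (by positivity)] at h3
  nlinarith

theorem log_average {E : Type} [MeasurableSpace E] {μ : Measure E} [SFinite μ] (w q : E → ℝ)
    (hwm : AEStronglyMeasurable w μ) (hw : ∀ x, 0 ≤ w x) (hqm : Measurable q) (hq : ∀ x, 0 ≤ q x)
    (hwq : ∀ x, q x = 0 → w x = 0) (g : ℝ → ℝ) (hg : Measurable g) (c C : ℝ) (hc : 0 < c)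
    (h1 : ∀ u : ℝ, 0 < u → c * min (u ^ (1 / 2 : ℝ)) (u ^ (-(1 / 2) : ℝ)) ≤ g u)
    (h2 : ∀ u : ℝ, 0 < u → g u ≤ C * min (u ^ (1 / 2 : ℝ)) (u ^ (-(1 / 2) : ℝ)))
    (hint : ∀ s : ℝ, 1 ≤ s → Integrable (fun x => w x * g (q x / s)) μ)
    (hloc : IntegrableOn w {x | q x ≤ 1} μ) (N : ℝ)
    (hN : Tendsto (fun s : ℝ => ∫ x, w x * g (q x / s) ∂μ) atTop (𝓝 N)) :
    0 < ∫ u in Set.Ioi (0 : ℝ), g u / u ∧
    Tendsto (fun S : ℝ => (∫ x in {x | q x ≤ S}, w x ∂μ) / Real.log S) atTop
      (𝓝 (N / ∫ u in Set.Ioi (0 : ℝ), g u / u)) := by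
  have hCc : c ≤ C := by
    have a1 := h1 1 one_pos
    have a2 := h2 1 one_pos
    simp only [Real.one_rpow, min_self, mul_one] at a1 a2
    linarith
  have hC : 0 < C := lt_of_lt_of_le hc hCc
  have hkpos : ∀ u : ℝ, 0 < u → 0 < min (u ^ (1 / 2 : ℝ)) (u ^ (-(1 / 2) : ℝ)) := fun u hu =>
    lt_min (Real.rpow_pos_of_pos hu _) (Real.rpow_pos_of_pos hu _)
  have hgpos : ∀ u : ℝ, 0 < u → 0 < g u := fun u hu =>
    lt_of_lt_of_le (mul_pos hc (hkpos u hu)) (h1 u hu)
  have h0 : ∀ u : ℝ, 0 < u → 0 ≤ g u := fun u hu => (hgpos u hu).le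
  have hA : ∀ u : ℝ, 0 < u → g u ≤ C * u ^ (1 / 2 : ℝ) := fun u hu =>
    (h2 u hu).trans (mul_le_mul_of_nonneg_left (min_le_left _ _) hC.le)
  have hB : ∀ u : ℝ, 0 < u → g u ≤ C * u ^ (-(1 / 2) : ℝ) := fun u hu =>
    (h2 u hu).trans (mul_le_mul_of_nonneg_left (min_le_right _ _) hC.le)
  have hG : IntegrableOn (fun u => g u / u) (Set.Ioi 0) := by
    rw [← Set.Ioc_union_Ioi_eq_Ioi (zero_le_one' ℝ)]
    exact (la_small g hg C h0 hA 1 zero_le_one).1.union (la_large g hg C h0 hB 1 one_pos).1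
  set G := ∫ u in Set.Ioi (0 : ℝ), g u / u with hGdef
  have hGpos : 0 < G := by
    rw [hGdef, setIntegral_pos_iff_support_of_nonneg_ae]
    · have : Function.support (fun u => g u / u) ∩ Set.Ioi 0 = Set.Ioi 0 := by
        apply Set.inter_eq_right.2
        intro u hu
        exact (div_pos (hgpos u hu) hu).ne'
      rw [this]
      simp
    · filter_upwards [ae_restrict_mem measurableSet_Ioi] with u hu
      exact (div_pos (hgpos u hu) hu).le
    · exact hG
  refine ⟨hGpos, ?_⟩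
  -- scaling comparison
  have hscale : ∀ u s : ℝ, 0 < u → 1 ≤ s → g (u / s) ≤ (C / c) * s ^ (1 / 2 : ℝ) * g u := by
    intro u s hu hs
    have hs0 : 0 < s := by linarith
    have hus : 0 < u / s := div_pos hu hs0
    have hk : min ((u / s) ^ (1 / 2 : ℝ)) ((u / s) ^ (-(1 / 2) : ℝ)) ≤
        s ^ (1 / 2 : ℝ) * min (u ^ (1 / 2 : ℝ)) (u ^ (-(1 / 2) : ℝ)) := by
      rw [mul_min_of_nonneg _ _ (Real.rpow_nonneg hs0.le _)]
      apply le_min
      · refine (min_le_left _ _).trans ?_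
        rw [Real.div_rpow hu.le hs0.le]
        have e1 : 1 ≤ s ^ (1 / 2 : ℝ) := Real.one_le_rpow hs (by norm_num)
        have e2 : 0 ≤ u ^ (1 / 2 : ℝ) := Real.rpow_nonneg hu.le _
        calc u ^ (1 / 2 : ℝ) / s ^ (1 / 2 : ℝ) ≤ u ^ (1 / 2 : ℝ) := div_le_self e2 e1
          _ ≤ s ^ (1 / 2 : ℝ) * u ^ (1 / 2 : ℝ) := le_mul_of_one_le_left e2 e1
      · refine (min_le_right _ _).trans ?_
        rw [Real.div_rpow hu.le hs0.le]
        apply le_of_eq
        rw [Real.rpow_neg hs0.le, Real.rpow_neg hu.le]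
        have e3 : 0 < s ^ (1 / 2 : ℝ) := Real.rpow_pos_of_pos hs0 _
        have e4 : 0 < u ^ (1 / 2 : ℝ) := Real.rpow_pos_of_pos hu _
        field_simp
    calc g (u / s) ≤ C * min ((u / s) ^ (1 / 2 : ℝ)) ((u / s) ^ (-(1 / 2) : ℝ)) := h2 _ hus
      _ ≤ C * (s ^ (1 / 2 : ℝ) * min (u ^ (1 / 2 : ℝ)) (u ^ (-(1 / 2) : ℝ))) :=
          mul_le_mul_of_nonneg_left hk hC.le
      _ = (C / c) * s ^ (1 / 2 : ℝ) * (c * min (u ^ (1 / 2 : ℝ)) (u ^ (-(1 / 2) : ℝ))) := by
          field_simp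
      _ ≤ (C / c) * s ^ (1 / 2 : ℝ) * g u := by
          apply mul_le_mul_of_nonneg_left (h1 u hu)
          exact mul_nonneg (div_nonneg hC.le hc.le) (Real.rpow_nonneg hs0.le _)
  have hqpos : ∀ x, w x ≠ 0 → 0 < q x := fun x hx =>
    lt_of_le_of_ne (hq x) (fun h => hx (hwq x h.symm))
  have hFnn : ∀ (x : E) (s : ℝ), 1 ≤ s → 0 ≤ w x * g (q x / s) := by
    intro x s hs
    by_cases hx : w x = 0
    · simp [hx]
    · exact mul_nonneg (hw x) (h0 _ (div_pos (hqpos x hx) (by linarith)))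
  -- product integrability
  have hprod : ∀ S : ℝ, Integrable (fun p : E × ℝ => w p.1 * g (q p.1 / p.2) / p.2)
      (μ.prod (volume.restrict (Set.Ioc 1 S))) := by
    intro S
    have hdom : Integrable (fun p : E × ℝ => (C / c) * (w p.1 * g (q p.1 / 1)))
        (μ.prod (volume.restrict (Set.Ioc 1 S))) := by
      have := (hint 1 le_rfl).comp_fst (volume.restrict (Set.Ioc (1 : ℝ) S))
      exact this.const_mul (C / c)
    refine Integrable.mono' hdom ?_ ?_
    · have m1 : AEStronglyMeasurable (fun p : E × ℝ => w p.1)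
          (μ.prod (volume.restrict (Set.Ioc (1 : ℝ) S))) := hwm.comp_fst
      have m2 : Measurable (fun p : E × ℝ => g (q p.1 / p.2) / p.2) :=
        (hg.comp ((hqm.comp measurable_fst).div measurable_snd)).div measurable_snd
      have := m1.mul m2.aestronglyMeasurable
      refine this.congr (Eventually.of_forall fun p => ?_)
      simp only [Pi.mul_apply]
      ring
    · have hae : ∀ᵐ p ∂(μ.prod (volume.restrict (Set.Ioc (1 : ℝ) S))), p.2 ∈ Set.Ioc (1 : ℝ) S :=
        Measure.quasiMeasurePreserving_snd.ae (ae_restrict_mem measurableSet_Ioc)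
      filter_upwards [hae] with p hp
      have hp1 : 1 ≤ p.2 := hp.1.le
      have hp0 : 0 < p.2 := by linarith
      rw [Real.norm_of_nonneg (div_nonneg (hFnn p.1 p.2 hp1) hp0.le), div_one]
      by_cases hx : w p.1 = 0
      · simp [hx]
      · have hqp := hqpos _ hx
        have := hscale (q p.1) p.2 hqp hp1
        rw [div_le_iff₀ hp0]
        calc w p.1 * g (q p.1 / p.2) ≤ w p.1 * ((C / c) * p.2 ^ (1 / 2 : ℝ) * g (q p.1)) :=
              mul_le_mul_of_nonneg_left this (hw _)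
          _ = (C / c) * (w p.1 * g (q p.1)) * p.2 ^ (1 / 2 : ℝ) := by ring
          _ ≤ (C / c) * (w p.1 * g (q p.1)) * p.2 := by
              apply mul_le_mul_of_nonneg_left
              · calc p.2 ^ (1 / 2 : ℝ) ≤ p.2 ^ (1 : ℝ) :=
                      Real.rpow_le_rpow_of_exponent_le hp1 (by norm_num)
                  _ = p.2 := Real.rpow_one _
              · exact mul_nonneg (div_nonneg hC.le hc.le) (mul_nonneg (hw _) (h0 _ hqp))
  set f : ℝ → ℝ := fun s => ∫ x, w x * g (q x / s) ∂μ with hfdef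
  have hfs : ∀ s : ℝ, ∫ x, w x * g (q x / s) / s ∂μ = f s / s := by
    intro s
    rw [integral_div]
  have hfint : ∀ S : ℝ, 1 ≤ S → IntegrableOn (fun s => f s / s) (Set.Ioc 1 S) := by
    intro S _
    have := (hprod S).integral_prod_right
    refine this.congr (Eventually.of_forall fun s => ?_)
    exact hfs s
  have hces := la_cesaro f N hfint hN
  have hBm : ∀ S : ℝ, MeasurableSet {x | 1 < q x ∧ q x ≤ S} := fun S =>
    (measurableSet_lt measurable_const hqm).inter (measurableSet_le hqm measurable_const)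
  have hwB : ∀ S : ℝ, 1 ≤ S → IntegrableOn w {x | 1 < q x ∧ q x ≤ S} μ := by
    intro S hS
    have hS0 : 0 < S := by linarith
    have hdom : IntegrableOn (fun x => (S ^ (1 / 2 : ℝ) / c) * (w x * g (q x / 1)))
        {x | 1 < q x ∧ q x ≤ S} μ := ((hint 1 le_rfl).const_mul _).integrableOn
    refine Integrable.mono' hdom hwm.restrict ?_
    filter_upwards [ae_restrict_mem (hBm S)] with x hx
    have hx1 : 1 < q x := hx.1
    have hx2 : q x ≤ S := hx.2
    have hx0 : 0 < q x := by linarith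
    rw [Real.norm_of_nonneg (hw x), div_one]
    have hgx := h1 (q x) hx0
    rw [la_k_large _ hx1.le] at hgx
    have hk2 : S ^ (-(1 / 2) : ℝ) ≤ (q x) ^ (-(1 / 2) : ℝ) :=
      Real.rpow_le_rpow_of_nonpos hx0 hx2 (by norm_num)
    have hSS : S ^ (1 / 2 : ℝ) * S ^ (-(1 / 2) : ℝ) = 1 := by
      rw [← Real.rpow_add hS0]; norm_num
    have hSp : 0 < S ^ (1 / 2 : ℝ) := Real.rpow_pos_of_pos hS0 _
    have h3 : c * S ^ (-(1 / 2) : ℝ) ≤ g (q x) :=
      (mul_le_mul_of_nonneg_left hk2 hc.le).trans hgx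
    have h4 : 1 ≤ (S ^ (1 / 2 : ℝ) / c) * g (q x) := by
      calc (1 : ℝ) = S ^ (1 / 2 : ℝ) * S ^ (-(1 / 2) : ℝ) := hSS.symm
        _ = (S ^ (1 / 2 : ℝ) / c) * (c * S ^ (-(1 / 2) : ℝ)) := by
            field_simp
        _ ≤ _ := mul_le_mul_of_nonneg_left h3 (div_nonneg hSp.le hc.le)
    calc w x = w x * 1 := (mul_one _).symm
      _ ≤ w x * ((S ^ (1 / 2 : ℝ) / c) * g (q x)) := mul_le_mul_of_nonneg_left h4 (hw x)
      _ = _ := by ring
  set V : ℝ → ℝ := fun S => ∫ x in {x | 1 < q x ∧ q x ≤ S}, w x ∂μ with hV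
  set H : ℝ → ℝ := fun S => ∫ s in Set.Ioc 1 S, f s / s with hH
  have hmain : ∀ S : ℝ, 1 ≤ S → |H S - G * V S| ≤ (2 * C / c) * (f S + f 1) := by
    intro S hS
    have hswap : H S = ∫ x, w x * (∫ s in Set.Ioc 1 S, g (q x / s) / s) ∂μ := by
      have := integral_integral_swap (f := fun (x : E) (s : ℝ) => w x * g (q x / s) / s)
        (μ := μ) (ν := volume.restrict (Set.Ioc 1 S)) (hprod S)
      rw [hH]
      simp only
      rw [show (fun s => f s / s) = fun s => ∫ x, w x * g (q x / s) / s ∂μ from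
        funext fun s => (hfs s).symm, ← this]
      congr 1
      ext x
      rw [← integral_const_mul]
      congr 1
      ext s
      ring
    have hintx : Integrable (fun x => w x * (∫ s in Set.Ioc 1 S, g (q x / s) / s)) μ := by
      have := (hprod S).integral_prod_left
      refine this.congr (Eventually.of_forall fun x => ?_)
      simp only
      rw [← integral_const_mul]
      congr 1
      ext s
      ring
    have hGV : G * V S = ∫ x, w x * (if 1 < q x ∧ q x ≤ S then G else 0) ∂μ := by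
      rw [hV]
      simp only
      rw [← integral_indicator (hBm S), ← integral_const_mul]
      congr 1
      ext x
      by_cases hx : 1 < q x ∧ q x ≤ S
      · rw [if_pos hx, Set.indicator_of_mem (show x ∈ {x | 1 < q x ∧ q x ≤ S} from hx)]
        ring
      · rw [if_neg hx, Set.indicator_of_notMem (show x ∉ {x | 1 < q x ∧ q x ≤ S} from hx)]
        ring
    have hintG : Integrable (fun x => w x * (if 1 < q x ∧ q x ≤ S then G else 0)) μ := by
      have := ((hwB S hS).integrable_indicator (hBm S)).mul_const G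
      refine this.congr (Eventually.of_forall fun x => ?_)
      simp only
      by_cases hx : 1 < q x ∧ q x ≤ S
      · rw [if_pos hx, Set.indicator_of_mem (show x ∈ {x | 1 < q x ∧ q x ≤ S} from hx)]
      · rw [if_neg hx, Set.indicator_of_notMem (show x ∉ {x | 1 < q x ∧ q x ≤ S} from hx)]
        ring
    rw [hswap, hGV, ← integral_sub hintx hintG]
    calc |∫ x, (w x * (∫ s in Set.Ioc 1 S, g (q x / s) / s) -
            w x * (if 1 < q x ∧ q x ≤ S then G else 0)) ∂μ|
        ≤ ∫ x, |w x * (∫ s in Set.Ioc 1 S, g (q x / s) / s) -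
            w x * (if 1 < q x ∧ q x ≤ S then G else 0)| ∂μ := abs_integral_le_integral_abs
      _ ≤ ∫ x, (2 * C / c) * (w x * g (q x / S) + w x * g (q x / 1)) ∂μ := by
          apply integral_mono (hintx.sub hintG).abs
            (((hint S hS).add (hint 1 le_rfl)).const_mul (2 * C / c))
          intro x
          simp only
          by_cases hx : w x = 0
          · simp [hx]
          · have hqp := hqpos x hx
            have hp := la_pointwise g hg c C hc h1 h2 hC h0 hA hB hG S (q x) hS hqp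
            simp only [Pi.sub_apply, Pi.add_apply]
            rw [← mul_sub, abs_mul, abs_of_nonneg (hw x), div_one]
            calc _ ≤ w x * ((2 * C / c) * (g (q x / S) + g (q x))) :=
                  mul_le_mul_of_nonneg_left hp (hw x)
              _ = _ := by ring
      _ = (2 * C / c) * (f S + f 1) := by
          rw [integral_const_mul, integral_add (hint S hS) (hint 1 le_rfl)]
  have hlog := Real.tendsto_log_atTop
  have hV_lim : Tendsto (fun S : ℝ => V S / Real.log S) atTop (𝓝 (N / G)) := by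
    have e0 : Tendsto (fun S : ℝ => (2 * C / c) * (f S + f 1) / Real.log S) atTop (𝓝 0) :=
      Tendsto.div_atTop ((hN.add_const (f 1)).const_mul (2 * C / c)) hlog
    have e1 : Tendsto (fun S : ℝ => (H S - G * V S) / Real.log S) atTop (𝓝 0) := by
      refine squeeze_zero_norm' ?_ e0
      filter_upwards [eventually_gt_atTop 1] with S hS
      have hl : 0 < Real.log S := Real.log_pos hS
      rw [Real.norm_eq_abs, abs_div, abs_of_pos hl]
      exact div_le_div_of_nonneg_right (hmain S hS.le) hl.le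
    have e2 : Tendsto (fun S : ℝ => (H S / Real.log S - (H S - G * V S) / Real.log S) / G) atTop
        (𝓝 ((N - 0) / G)) := (hces.sub e1).div_const G
    rw [sub_zero] at e2
    refine e2.congr ?_
    intro S
    rw [← sub_div, sub_sub_cancel, mul_div_assoc, mul_div_cancel_left₀ _ hGpos.ne']
  have hW : Tendsto (fun S : ℝ => (∫ x in {x | q x ≤ 1}, w x ∂μ) / Real.log S) atTop (𝓝 0) :=
    Tendsto.div_atTop tendsto_const_nhds hlog
  have hfin := hW.add hV_lim
  rw [zero_add] at hfin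
  refine hfin.congr' ?_
  filter_upwards [eventually_gt_atTop 1] with S hS
  rw [← add_div]
  congr 1
  have hu : {x | q x ≤ S} = {x | q x ≤ 1} ∪ {x | 1 < q x ∧ q x ≤ S} := by
    ext x
    simp only [Set.mem_union, Set.mem_ofPred_eq]
    constructor
    · intro h
      by_cases h' : q x ≤ 1
      · exact Or.inl h'
      · exact Or.inr ⟨not_le.1 h', h⟩
    · rintro (h | h)
      · linarith
      · exact h.2
  rw [hu, setIntegral_union _ (hBm S) hloc (hwB S hS.le)]
  rw [Set.disjoint_left]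
  intro x hx hx'
  exact absurd hx'.1 (not_lt.2 hx)

end Pool.Agent.H269
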