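import Pool.Agent.H269.GX.X074

/-!
# Mellin transform of the Taylor remainder (MP_f2af60_mp)
-/

set_option autoImplicit false

open MeasureTheory Filter Topology Complex
open scoped InnerProductSpace ENNReal NNReal

namespace Pool.Agent.H269

theorem mel_gamma_int (s r : ℝ) (hs : 0 < s) (hr : 0 < r) :
    IntegrableOn (fun t : ℝ => t ^ (s - 1) * Real.exp (-(r * t))) (Set.Ioi 0) := by
  have h := integrableOn_rpow_mul_exp_neg_mul_rpow (p := 1) (s := s - 1) (b := r)
    (by linarith) one_pos hr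
  refine h.congr_fun (fun t _ => ?_) measurableSet_Ioi
  simp only [Real.rpow_one]
  rw [neg_mul]

theorem mel_gamma_lint (s r : ℝ) (hs : 0 < s) (hr : 0 < r) :
    ∫⁻ t in Set.Ioi (0 : ℝ), ENNReal.ofReal (t ^ (s - 1) * Real.exp (-(r * t)))
      = ENNReal.ofReal ((1 / r) ^ s * Real.Gamma s) := by
  rw [← Real.integral_rpow_mul_exp_neg_mul_Ioi hs hr, ofReal_integral_eq_lintegral_ofReal]
  · exact mel_gamma_int s r hs hr
  · refine (ae_restrict_iff' measurableSet_Ioi).2 (Filter.Eventually.of_forall fun t ht => ?_)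
    have ht : (0 : ℝ) < t := ht
    simp only [Pi.zero_apply]
    positivity

theorem mel_beta (u c : ℝ) (hu : 0 < u) (hc : u < c) :
    IntegrableOn (fun a : ℝ => a ^ (u - 1) * (1 + a) ^ (-c)) (Set.Ioi 0) ∧
    ∫ a in Set.Ioi (0 : ℝ), a ^ (u - 1) * (1 + a) ^ (-c)
      = Real.Gamma u * Real.Gamma (c - u) / Real.Gamma c := by
  have hc0 : 0 < c := hu.trans hc
  have hG := Real.Gamma_pos_of_pos hc0
  have hGu := Real.Gamma_pos_of_pos hu
  have hGv := Real.Gamma_pos_of_pos (sub_pos.2 hc)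
  have key : ∫⁻ a in Set.Ioi (0 : ℝ), ENNReal.ofReal (a ^ (u - 1) * (1 + a) ^ (-c) * Real.Gamma c)
      = ENNReal.ofReal (Real.Gamma u * Real.Gamma (c - u)) := by
    have h1 : ∫⁻ a in Set.Ioi (0 : ℝ), ENNReal.ofReal (a ^ (u - 1) * (1 + a) ^ (-c) * Real.Gamma c)
        = ∫⁻ a in Set.Ioi (0 : ℝ), ∫⁻ x in Set.Ioi (0 : ℝ),
          ENNReal.ofReal (a ^ (u - 1) * (x ^ (c - 1) * Real.exp (-((1 + a) * x)))) := by
      refine setLIntegral_congr_fun measurableSet_Ioi fun a ha => ?_
      have ha : (0 : ℝ) < a := ha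
      have e := mel_gamma_lint c (1 + a) hc0 (by linarith)
      have e2 : ∀ x : ℝ, ENNReal.ofReal (a ^ (u - 1) * (x ^ (c - 1) * Real.exp (-((1 + a) * x))))
          = ENNReal.ofReal (a ^ (u - 1)) * ENNReal.ofReal (x ^ (c - 1) * Real.exp (-((1 + a) * x))) :=
        fun x => ENNReal.ofReal_mul (by positivity)
      simp_rw [e2]
      rw [lintegral_const_mul' _ _ ENNReal.ofReal_ne_top, e, ← ENNReal.ofReal_mul (by positivity)]
      congr 1
      rw [Real.rpow_neg (by linarith), one_div, Real.inv_rpow (by linarith)]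
      ring
    rw [h1, lintegral_lintegral_swap]
    · have h2 : ∀ x ∈ Set.Ioi (0 : ℝ), ∫⁻ a in Set.Ioi (0 : ℝ),
          ENNReal.ofReal (a ^ (u - 1) * (x ^ (c - 1) * Real.exp (-((1 + a) * x))))
          = ENNReal.ofReal (Real.Gamma u) * ENNReal.ofReal (x ^ ((c - u) - 1) * Real.exp (-(1 * x))) := by
        intro x hx
        have hx : (0 : ℝ) < x := hx
        have e := mel_gamma_lint u x hu hx
        have e2 : ∀ a : ℝ, ENNReal.ofReal (a ^ (u - 1) * (x ^ (c - 1) * Real.exp (-((1 + a) * x))))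
            = ENNReal.ofReal (x ^ (c - 1) * Real.exp (-x))
              * ENNReal.ofReal (a ^ (u - 1) * Real.exp (-(x * a))) := by
          intro a
          rw [← ENNReal.ofReal_mul (by positivity)]
          congr 1
          have : Real.exp (-((1 + a) * x)) = Real.exp (-x) * Real.exp (-(x * a)) := by
            rw [← Real.exp_add]
            congr 1
            ring
          rw [this]
          ring
        simp_rw [e2]
        rw [lintegral_const_mul' _ _ ENNReal.ofReal_ne_top, e, ← ENNReal.ofReal_mul (by positivity),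
          ← ENNReal.ofReal_mul hGu.le]
        congr 1
        rw [one_div, Real.inv_rpow hx.le, one_mul, ← Real.rpow_neg hx.le,
          show c - u - 1 = (c - 1) + (-u) by ring, Real.rpow_add hx]
        ring
      rw [setLIntegral_congr_fun measurableSet_Ioi h2,
        lintegral_const_mul' _ _ ENNReal.ofReal_ne_top,
        mel_gamma_lint (c - u) 1 (sub_pos.2 hc) one_pos, ← ENNReal.ofReal_mul hGu.le]
      congr 1
      simp
    · have : Measurable (Function.uncurry fun (a x : ℝ) =>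
          ENNReal.ofReal (a ^ (u - 1) * (x ^ (c - 1) * Real.exp (-((1 + a) * x))))) := by
        unfold Function.uncurry
        fun_prop
      exact this.aemeasurable
  have hm : Measurable (fun a : ℝ => a ^ (u - 1) * (1 + a) ^ (-c) * Real.Gamma c) := by fun_prop
  have hn : 0 ≤ᵐ[volume.restrict (Set.Ioi (0 : ℝ))]
      (fun a : ℝ => a ^ (u - 1) * (1 + a) ^ (-c) * Real.Gamma c) := by
    refine (ae_restrict_iff' measurableSet_Ioi).2 (Filter.Eventually.of_forall fun t ht => ?_)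
    have ht : (0 : ℝ) < t := ht
    simp only [Pi.zero_apply]
    positivity
  have hi : IntegrableOn (fun a : ℝ => a ^ (u - 1) * (1 + a) ^ (-c) * Real.Gamma c) (Set.Ioi 0) := by
    refine ⟨hm.aestronglyMeasurable, ?_⟩
    rw [hasFiniteIntegral_iff_ofReal hn, key]
    exact ENNReal.ofReal_lt_top
  have hv : ∫ a in Set.Ioi (0 : ℝ), a ^ (u - 1) * (1 + a) ^ (-c) * Real.Gamma c
      = Real.Gamma u * Real.Gamma (c - u) := by
    rw [integral_eq_lintegral_of_nonneg_ae hn hm.aestronglyMeasurable, key,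
      ENNReal.toReal_ofReal (by positivity)]
  refine ⟨?_, ?_⟩
  · refine IntegrableOn.congr_fun (Integrable.mul_const hi (Real.Gamma c)⁻¹) (fun a _ => ?_)
      measurableSet_Ioi
    rw [mul_inv_cancel_right₀ hG.ne']
  · rw [integral_mul_const] at hv
    rw [eq_div_iff hG.ne']
    exact hv


theorem mel_cf_succ (β : ℝ) (i : ℕ) : cf β (i + 1) * (i + 1) = β * cf (β + 1) i := by
  unfold cf
  rw [Finset.prod_range_succ', Nat.factorial_succ]
  have h : (i.factorial : ℝ) ≠ 0 := by positivity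
  have h' : ((i : ℝ) + 1) ≠ 0 := by positivity
  have e : ∀ k ∈ Finset.range i, β + ((k + 1 : ℕ) : ℝ) = β + 1 + (k : ℝ) := fun k _ => by
    push_cast
    ring
  rw [Finset.prod_congr rfl e]
  push_cast
  field_simp
  ring

theorem mel_cf_pos (β : ℝ) (hβ : 0 < β) (i : ℕ) : 0 < cf β i := by
  unfold cf
  have : ∀ j ∈ Finset.range i, 0 < β + (j : ℝ) := fun j _ => by positivity
  have := Finset.prod_pos this
  positivity

theorem mel_deriv_zero (β a : ℝ) (ha : 0 < a) :
    HasDerivAt (rm β 0) (β * (1 + a) ^ (-(β + 1))) a := by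
  have h1 : HasDerivAt (fun u : ℝ => 1 + u) 1 a := (hasDerivAt_id a).const_add 1
  have h2 := h1.rpow_const (p := -β) (Or.inl (by linarith : (1 + a) ≠ 0))
  have h3 := (h2.sub_const (∑ i ∈ Finset.range (0 + 1), (-1) ^ i * cf β i * a ^ i)).const_mul
    ((-1 : ℝ) ^ (0 + 1))
  have e : rm β 0 = fun y : ℝ => (-1 : ℝ) ^ (0 + 1) *
      ((1 + y) ^ (-β) - ∑ i ∈ Finset.range (0 + 1), (-1) ^ i * cf β i * a ^ i) := by
    funext y
    unfold rm
    simp
  rw [e]
  refine h3.congr_deriv ?_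
  rw [show -(β + 1) = -β - 1 by ring]
  ring

theorem mel_deriv_succ (β a : ℝ) (m : ℕ) (ha : 0 < a) :
    HasDerivAt (rm β (m + 1)) (β * rm (β + 1) m a) a := by
  have h1 : HasDerivAt (fun u : ℝ => 1 + u) 1 a := (hasDerivAt_id a).const_add 1
  have h2 := h1.rpow_const (p := -β) (Or.inl (by linarith : (1 + a) ≠ 0))
  have h4 : HasDerivAt (fun u : ℝ => ∑ i ∈ Finset.range (m + 1 + 1), (-1) ^ i * cf β i * u ^ i)
      (∑ i ∈ Finset.range (m + 1 + 1), (-1) ^ i * cf β i * ((i : ℝ) * a ^ (i - 1))) a := by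
    have := HasDerivAt.fun_sum (u := Finset.range (m + 1 + 1))
      (A := fun (i : ℕ) (u : ℝ) => (-1) ^ i * cf β i * u ^ i)
      (A' := fun i : ℕ => (-1) ^ i * cf β i * ((i : ℝ) * a ^ (i - 1))) (x := a)
      (fun i _ => (hasDerivAt_pow i a).const_mul _)
    exact this
  have h3 := (h2.sub h4).const_mul ((-1 : ℝ) ^ (m + 1 + 1))
  have h5 : HasDerivAt (rm β (m + 1)) _ a := h3
  refine h5.congr_deriv ?_
  symm
  unfold rm
  rw [Finset.sum_range_succ' _ (m + 1)]
  have e : ∀ i ∈ Finset.range (m + 1), (-1 : ℝ) ^ (i + 1) * cf β (i + 1) *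
      (((i + 1 : ℕ) : ℝ) * a ^ (i + 1 - 1)) = -β * ((-1) ^ i * cf (β + 1) i * a ^ i) := by
    intro i _
    have := mel_cf_succ β i
    rw [Nat.add_sub_cancel]
    push_cast
    rw [pow_succ]
    linear_combination -(-1 : ℝ) ^ i * a ^ i * this
  rw [Finset.sum_congr rfl e, ← Finset.mul_sum]
  rw [show -(β + 1) = -β - 1 by ring]
  push_cast
  rw [pow_succ (-1 : ℝ) (m + 1)]
  ring

theorem mel_cont (β : ℝ) (m : ℕ) : ContinuousOn (rm β m) (Set.Ioi 0) := by
  intro a ha
  have ha : (0 : ℝ) < a := ha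
  cases m with
  | zero => exact (mel_deriv_zero β a ha).continuousAt.continuousWithinAt
  | succ m => exact (mel_deriv_succ β a m ha).continuousAt.continuousWithinAt

theorem mel_integrable (β : ℝ) (hβ : 0 < β) (m : ℕ) (σ : ℝ) (h1 : (m : ℝ) < σ) (h2 : σ < m + 1) :
    IntegrableOn (fun a : ℝ => a ^ (-σ - 1) * rm β m a) (Set.Ioi 0) := by
  have hb := (rm_bounds β hβ m).1
  have hc : ContinuousOn (fun a : ℝ => a ^ (-σ - 1) * rm β m a) (Set.Ioi 0) := by
    refine ContinuousOn.mul ?_ (mel_cont β m)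
    exact fun a ha => (Real.continuousAt_rpow_const a _ (Or.inl (ne_of_gt ha))).continuousWithinAt
  rw [← Set.Ioc_union_Ioi_eq_Ioi (zero_le_one' ℝ), integrableOn_union]
  constructor
  · have hI : IntegrableOn (fun a : ℝ => cf β (m + 1) * a ^ ((m : ℝ) - σ)) (Set.Ioc 0 1) := by
      have := (intervalIntegral.intervalIntegrable_rpow' (a := 0) (b := 1)
        (r := (m : ℝ) - σ) (by linarith)).const_mul (cf β (m + 1))
      rwa [intervalIntegrable_iff_integrableOn_Ioc_of_le zero_le_one] at this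
    refine Integrable.mono' hI ((hc.mono fun a ha => ha.1).aestronglyMeasurable measurableSet_Ioc) ?_
    refine (ae_restrict_iff' measurableSet_Ioc).2 (Filter.Eventually.of_forall fun a ha => ?_)
    have ha0 : (0 : ℝ) < a := ha.1
    obtain ⟨b0, b1, b2⟩ := hb a ha0.le
    rw [Real.norm_of_nonneg (by positivity)]
    calc a ^ (-σ - 1) * rm β m a ≤ a ^ (-σ - 1) * (cf β (m + 1) * a ^ (m + 1)) := by gcongr
      _ = cf β (m + 1) * a ^ ((m : ℝ) - σ) := by
        rw [← Real.rpow_natCast, show (m : ℝ) - σ = (-σ - 1) + ((m + 1 : ℕ) : ℝ) by push_cast; ring,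
          Real.rpow_add ha0]
        ring
  · have hI : IntegrableOn (fun a : ℝ => cf β m * a ^ ((m : ℝ) - σ - 1)) (Set.Ioi 1) :=
      (integrableOn_Ioi_rpow_of_lt (by linarith) one_pos).const_mul _
    refine Integrable.mono' hI ((hc.mono fun a ha => (zero_lt_one.trans ha :
      (0 : ℝ) < a)).aestronglyMeasurable measurableSet_Ioi) ?_
    refine (ae_restrict_iff' measurableSet_Ioi).2 (Filter.Eventually.of_forall fun a ha => ?_)
    have ha0 : (0 : ℝ) < a := zero_lt_one.trans ha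
    obtain ⟨b0, b1, b2⟩ := hb a ha0.le
    rw [Real.norm_of_nonneg (by positivity)]
    calc a ^ (-σ - 1) * rm β m a ≤ a ^ (-σ - 1) * (cf β m * a ^ m) := by gcongr
      _ = cf β m * a ^ ((m : ℝ) - σ - 1) := by
        rw [← Real.rpow_natCast, show (m : ℝ) - σ - 1 = (-σ - 1) + (m : ℝ) by ring,
          Real.rpow_add ha0]
        ring

theorem mel_parts (β : ℝ) (hβ : 0 < β) (m : ℕ) (σ : ℝ) (h1 : (m : ℝ) < σ) (h2 : σ < m + 1)
    (v' : ℝ → ℝ) (hv : ∀ a : ℝ, 0 < a → HasDerivAt (rm β m) (v' a) a)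
    (hi : IntegrableOn (fun a : ℝ => a ^ (-σ) * v' a) (Set.Ioi 0)) :
    ∫ a in Set.Ioi (0 : ℝ), a ^ (-σ - 1) * rm β m a
      = 1 / σ * ∫ a in Set.Ioi (0 : ℝ), a ^ (-σ) * v' a := by
  have hσ : 0 < σ := lt_of_le_of_lt (Nat.cast_nonneg m) h1
  have hb := (rm_bounds β hβ m).1
  have hI := mel_integrable β hβ m σ h1 h2
  have hz : Tendsto ((fun a : ℝ => a ^ (-σ)) * rm β m) (𝓝[>] 0) (𝓝 0) := by
    have h0 : Tendsto (fun a : ℝ => cf β (m + 1) * a ^ ((m : ℝ) + 1 - σ)) (𝓝[>] 0) (𝓝 0) := by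
      have : ContinuousAt (fun a : ℝ => cf β (m + 1) * a ^ ((m : ℝ) + 1 - σ)) 0 :=
        (Real.continuousAt_rpow_const 0 _ (Or.inr (by linarith))).const_mul _
      have h3 := this.tendsto
      rw [Real.zero_rpow (by linarith), mul_zero] at h3
      exact h3.mono_left nhdsWithin_le_nhds
    refine squeeze_zero' (f := (fun a : ℝ => a ^ (-σ)) * rm β m) ?_ ?_ h0
    · filter_upwards [self_mem_nhdsWithin] with a ha
      have ha : (0 : ℝ) < a := ha
      have := (hb a ha.le).1
      simp only [Pi.mul_apply]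
      positivity
    · filter_upwards [self_mem_nhdsWithin] with a ha
      have ha : (0 : ℝ) < a := ha
      have b2 := (hb a ha.le).2.2
      simp only [Pi.mul_apply]
      calc a ^ (-σ) * rm β m a ≤ a ^ (-σ) * (cf β (m + 1) * a ^ (m + 1)) := by gcongr
        _ = cf β (m + 1) * a ^ ((m : ℝ) + 1 - σ) := by
          rw [← Real.rpow_natCast, show (m : ℝ) + 1 - σ = -σ + ((m + 1 : ℕ) : ℝ) by push_cast; ring,
            Real.rpow_add ha]
          ring
  have hinf : Tendsto ((fun a : ℝ => a ^ (-σ)) * rm β m) atTop (𝓝 0) := by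
    have h0 : Tendsto (fun a : ℝ => cf β m * a ^ (-(σ - (m : ℝ)))) atTop (𝓝 0) := by
      have := (tendsto_rpow_neg_atTop (y := σ - (m : ℝ)) (by linarith)).const_mul (cf β m)
      rwa [mul_zero] at this
    refine squeeze_zero' (f := (fun a : ℝ => a ^ (-σ)) * rm β m) ?_ ?_ h0
    · filter_upwards [eventually_gt_atTop 0] with a ha
      have := (hb a ha.le).1
      simp only [Pi.mul_apply]
      positivity
    · filter_upwards [eventually_gt_atTop 0] with a ha
      have b2 := (hb a ha.le).2.1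
      simp only [Pi.mul_apply]
      calc a ^ (-σ) * rm β m a ≤ a ^ (-σ) * (cf β m * a ^ m) := by gcongr
        _ = cf β m * a ^ (-(σ - (m : ℝ))) := by
          rw [← Real.rpow_natCast, show -(σ - (m : ℝ)) = -σ + (m : ℝ) by ring, Real.rpow_add ha]
          ring
  have h := integral_Ioi_mul_deriv_eq_deriv_mul (a := 0) (u := fun a : ℝ => a ^ (-σ))
    (u' := fun a : ℝ => (-σ) * a ^ (-σ - 1)) (v := rm β m) (v' := v') (a' := 0) (b' := 0)
    (fun a ha => Real.hasDerivAt_rpow_const (Or.inl (ne_of_gt ha))) (fun a ha => hv a ha) hi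
    (by
      refine IntegrableOn.congr_fun (Integrable.const_mul hI (-σ)) (fun a _ => ?_) measurableSet_Ioi
      simp only [Pi.mul_apply]
      ring) hz hinf
  have h' : ∫ a in Set.Ioi (0 : ℝ), (-σ) * a ^ (-σ - 1) * rm β m a
      = (-σ) * ∫ a in Set.Ioi (0 : ℝ), a ^ (-σ - 1) * rm β m a := by
    rw [← integral_const_mul]
    refine setIntegral_congr_fun measurableSet_Ioi fun a _ => ?_
    ring
  rw [h'] at h
  rw [h]
  field_simp
  ring

theorem mel_value (m : ℕ) : ∀ (β : ℝ) (hβ : 0 < β) (σ : ℝ) (h1 : (m : ℝ) < σ) (h2 : σ < m + 1),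
    ∫ a in Set.Ioi (0 : ℝ), a ^ (-σ - 1) * rm β m a =
      (-1) ^ (m + 1) * Real.Gamma (-σ) * Real.Gamma (β + σ) / Real.Gamma β := by
  induction m with
  | zero =>
    intro β hβ σ h1 h2
    simp only [Nat.cast_zero, zero_add] at h1 h2
    obtain ⟨hi, hv⟩ := mel_beta (1 - σ) (β + 1) (by linarith) (by linarith)
    have hi' : IntegrableOn (fun a : ℝ => a ^ (-σ) * (β * (1 + a) ^ (-(β + 1)))) (Set.Ioi 0) := by
      refine IntegrableOn.congr_fun (Integrable.const_mul hi β) (fun a _ => ?_) measurableSet_Ioi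
      rw [show 1 - σ - 1 = -σ by ring]
      ring
    rw [mel_parts β hβ 0 σ (by simpa using h1) (by simpa using h2) _
      (fun a ha => mel_deriv_zero β a ha) hi']
    have e : ∫ a in Set.Ioi (0 : ℝ), a ^ (-σ) * (β * (1 + a) ^ (-(β + 1)))
        = β * ∫ a in Set.Ioi (0 : ℝ), a ^ (1 - σ - 1) * (1 + a) ^ (-(β + 1)) := by
      rw [← integral_const_mul]
      refine setIntegral_congr_fun measurableSet_Ioi fun a _ => ?_
      rw [show 1 - σ - 1 = -σ by ring]
      ring
    rw [e, hv, show β + 1 - (1 - σ) = β + σ by ring, Real.Gamma_add_one hβ.ne',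
      show (1 : ℝ) - σ = -σ + 1 by ring, Real.Gamma_add_one (by linarith : -σ ≠ 0)]
    have hG := (Real.Gamma_pos_of_pos hβ).ne'
    have hs : σ ≠ 0 := by linarith
    have hb := hβ.ne'
    field_simp
    ring
  | succ m ih =>
    intro β hβ σ h1 h2
    push_cast at h1 h2
    have hm : (0 : ℝ) ≤ m := Nat.cast_nonneg m
    have hi := mel_integrable (β + 1) (by linarith) m (σ - 1) (by linarith) (by linarith)
    have hv := ih (β + 1) (by linarith) (σ - 1) (by linarith) (by linarith)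
    have hi' : IntegrableOn (fun a : ℝ => a ^ (-σ) * (β * rm (β + 1) m a)) (Set.Ioi 0) := by
      refine IntegrableOn.congr_fun (Integrable.const_mul hi β) (fun a _ => ?_) measurableSet_Ioi
      rw [show -(σ - 1) - 1 = -σ by ring]
      ring
    rw [mel_parts β hβ (m + 1) σ (by push_cast; linarith) (by push_cast; linarith) _
      (fun a ha => mel_deriv_succ β a m ha) hi']
    have e : ∫ a in Set.Ioi (0 : ℝ), a ^ (-σ) * (β * rm (β + 1) m a)
        = β * ∫ a in Set.Ioi (0 : ℝ), a ^ (-(σ - 1) - 1) * rm (β + 1) m a := by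
      rw [← integral_const_mul]
      refine setIntegral_congr_fun measurableSet_Ioi fun a _ => ?_
      rw [show -(σ - 1) - 1 = -σ by ring]
      ring
    rw [e, hv, show β + 1 + (σ - 1) = β + σ by ring, Real.Gamma_add_one hβ.ne',
      show -(σ - 1) = -σ + 1 by ring, Real.Gamma_add_one (by linarith : -σ ≠ 0)]
    have hG := (Real.Gamma_pos_of_pos hβ).ne'
    have hs : σ ≠ 0 := by linarith
    have hb := hβ.ne'
    rw [pow_succ (-1 : ℝ) (m + 1)]
    field_simp
    try ring

theorem rm_mellin (β : ℝ) (hβ : 0 < β) (m : ℕ) (σ : ℝ) (h1 : (m : ℝ) < σ) (h2 : σ < m + 1) :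
    IntegrableOn (fun a : ℝ => a ^ (-σ - 1) * rm β m a) (Set.Ioi 0) ∧
    ∫ a in Set.Ioi (0 : ℝ), a ^ (-σ - 1) * rm β m a =
      (-1) ^ (m + 1) * Real.Gamma (-σ) * Real.Gamma (β + σ) / Real.Gamma β :=
  ⟨mel_integrable β hβ m σ h1 h2, mel_value m β hβ σ h1 h2⟩

end Pool.Agent.H269
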