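import Pool.Agent.H269.GX.X111
import Pool.Agent.H269.GX.X130

/-!
# Integral of the profile of the quadratic term (MP_f2af60_mp)
-/

set_option autoImplicit false

open MeasureTheory Filter Topology Complex
open scoped InnerProductSpace ENNReal NNReal

namespace Pool.Agent.H269

theorem beta_real (α β : ℝ) (hα : 0 < α) (hβ : 0 < β) :
    ∫ x in Set.Ioo (0 : ℝ) 1, x ^ (α - 1) * (1 - x) ^ (β - 1) =
      Real.Gamma α * Real.Gamma β / Real.Gamma (α + β) := by
  have h0 : ProbabilityTheory.beta α β = Real.Gamma α * Real.Gamma β / Real.Gamma (α + β) := rfl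
  rw [← h0, ProbabilityTheory.beta_eq_betaIntegralReal α β hα hβ, betaIntegral,
    intervalIntegral.integral_of_le (by norm_num), ← integral_Ioc_eq_integral_Ioo,
    ← RCLike.re_to_complex, ← integral_re]
  · refine setIntegral_congr_fun measurableSet_Ioc fun x ⟨hx1, hx₂⟩ ↦ ?_
    norm_cast
    rw [← Complex.ofReal_cpow, ← Complex.ofReal_cpow, RCLike.re_to_complex,
      Complex.re_mul_ofReal, Complex.ofReal_re]
    all_goals linarith
  convert! betaIntegral_convergent (u := α) (v := β) (by simpa) (by simpa)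
  rw [intervalIntegrable_iff_integrableOn_Ioc_of_le (by simp), IntegrableOn]

theorem rm_measurable (β : ℝ) (m : ℕ) : Measurable (rm β m) := by
  unfold rm
  have h1 : Measurable (fun u : ℝ => (1 + u) ^ (-β)) := by fun_prop
  have h2 : Measurable (fun u : ℝ => ∑ i ∈ Finset.range (m + 1), (-1) ^ i * cf β i * u ^ i) := by
    fun_prop
  exact (h1.sub h2).const_mul _

/-- inner integral -/
theorem inner_int (β : ℝ) (hβ : 0 < β) (m : ℕ) (σ : ℝ) (h1 : (m : ℝ) < σ) (h2 : σ < m + 1)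
    (c : ℝ) (hc : 0 < c) :
    IntegrableOn (fun u : ℝ => u ^ (-σ - 1) * rm β m (c * u)) (Set.Ioi 0) ∧
    ∫ u in Set.Ioi (0 : ℝ), u ^ (-σ - 1) * rm β m (c * u) =
      c ^ σ * ∫ a in Set.Ioi (0 : ℝ), a ^ (-σ - 1) * rm β m a := by
  obtain ⟨hi, -⟩ := rm_mellin β hβ m σ h1 h2
  set g : ℝ → ℝ := fun a => a ^ (-σ - 1) * rm β m a with hg
  have e : ∀ u ∈ Set.Ioi (0 : ℝ), u ^ (-σ - 1) * rm β m (c * u) = c ^ (σ + 1) * g (c * u) := by
    intro u hu
    have hu0 : (0 : ℝ) < u := hu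
    simp only [hg]
    rw [Real.mul_rpow hc.le hu0.le]
    have h3 : c ^ (σ + 1) * c ^ (-σ - 1) = 1 := by
      rw [← Real.rpow_add hc]; simp
    calc u ^ (-σ - 1) * rm β m (c * u) = 1 * (u ^ (-σ - 1) * rm β m (c * u)) := by ring
      _ = (c ^ (σ + 1) * c ^ (-σ - 1)) * (u ^ (-σ - 1) * rm β m (c * u)) := by rw [h3]
      _ = _ := by ring
  constructor
  · have h3 : IntegrableOn (fun u => g (c * u)) (Set.Ioi 0) := by
      rw [integrableOn_Ioi_comp_mul_left_iff g 0 hc]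
      simpa using hi
    exact (integrableOn_congr_fun e measurableSet_Ioi).2 (h3.const_mul _)
  · rw [setIntegral_congr_fun measurableSet_Ioi e, integral_const_mul,
      integral_comp_mul_left_Ioi g 0 hc, mul_zero, smul_eq_mul, ← mul_assoc]
    congr 1
    rw [Real.rpow_add hc, Real.rpow_one]
    field_simp

theorem gg_int (v K : ℕ) (hv : 1 ≤ v) (hK : 2 * v + 3 ≤ K) :
    ∫ u in Set.Ioi (0 : ℝ), gg v K u / u =
      (4 * Real.pi ^ 2) ^ ((v : ℝ) - 1 / 2) * (Real.Gamma ((v : ℝ) + 1 / 2) *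
        Real.pi * ((K - 1).factorial : ℝ)) / (((2 * v).factorial : ℝ) *
          Real.Gamma ((K : ℝ) + 1 / 2 - v)) := by
  have hv' : (1 : ℝ) ≤ v := by exact_mod_cast hv
  have hK' : (2 : ℝ) * v + 3 ≤ K := by exact_mod_cast hK
  set σ : ℝ := (v : ℝ) - 1 / 2 with hσ
  set β : ℝ := (K : ℝ) + 1 / 2 - v with hβd
  have hβ : 0 < β := by rw [hβd]; linarith
  have hm : ((v - 1 : ℕ) : ℝ) = v - 1 := by push_cast [Nat.cast_sub hv]; ring
  have h1 : ((v - 1 : ℕ) : ℝ) < σ := by rw [hm, hσ]; linarith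
  have h2 : σ < ((v - 1 : ℕ) : ℝ) + 1 := by rw [hm, hσ]; linarith
  have hσ0 : 0 < σ := by rw [hσ]; linarith
  obtain ⟨-, hM⟩ := rm_mellin β hβ (v - 1) σ h1 h2
  have hnn := fun u hu => ((rm_bounds β hβ (v - 1)).1 u hu).1
  set M : ℝ := ∫ a in Set.Ioi (0 : ℝ), a ^ (-σ - 1) * rm β (v - 1) a with hMd
  set F : ℝ → ℝ → ℝ := fun u x => u ^ (-σ - 1) * rm β (v - 1) (4 * Real.pi ^ 2 * (x * (1 - x)) * u)
    with hF
  have hc : ∀ x ∈ Set.Ioo (0 : ℝ) 1, 0 < 4 * Real.pi ^ 2 * (x * (1 - x)) := by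
    intro x hx
    have h3 : 0 < x * (1 - x) := mul_pos hx.1 (by linarith [hx.2])
    have := Real.pi_pos
    positivity
  have s1 : ∫ u in Set.Ioi (0 : ℝ), gg v K u / u =
      ∫ u in Set.Ioi (0 : ℝ), ∫ x in Set.Ioo (0 : ℝ) 1, F u x := by
    refine setIntegral_congr_fun measurableSet_Ioi fun u hu => ?_
    have hu0 : (0 : ℝ) < u := hu
    simp only [hF]
    rw [integral_const_mul]
    unfold gg gI
    rw [← hσ, ← hβd]
    have e1 : u ^ (-σ) / u = u ^ (-σ - 1) := by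
      rw [Real.rpow_sub hu0, Real.rpow_one]
    have e2 : ∀ x : ℝ, 4 * Real.pi ^ 2 * u * (x * (1 - x)) = 4 * Real.pi ^ 2 * (x * (1 - x)) * u := by
      intro x; ring
    simp_rw [e2]
    rw [← e1]
    ring
  have hFm : Measurable (Function.uncurry F) := by
    have h3 : Function.uncurry F = fun p : ℝ × ℝ =>
        p.1 ^ (-σ - 1) * rm β (v - 1) (4 * Real.pi ^ 2 * (p.2 * (1 - p.2)) * p.1) := by
      ext ⟨u, x⟩; rfl
    rw [h3]
    have h4 : Measurable (fun p : ℝ × ℝ => 4 * Real.pi ^ 2 * (p.2 * (1 - p.2)) * p.1) := by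
      fun_prop
    have h5 : Measurable (fun p : ℝ × ℝ => p.1 ^ (-σ - 1)) := by fun_prop
    exact h5.mul ((rm_measurable β (v - 1)).comp h4)
  have hin : ∀ x ∈ Set.Ioo (0 : ℝ) 1, IntegrableOn (fun u => F u x) (Set.Ioi 0) ∧
      ∫ u in Set.Ioi (0 : ℝ), F u x = (4 * Real.pi ^ 2 * (x * (1 - x))) ^ σ * M := by
    intro x hx
    exact inner_int β hβ (v - 1) σ h1 h2 _ (hc x hx)
  have hFnn : ∀ x ∈ Set.Ioo (0 : ℝ) 1, ∀ u ∈ Set.Ioi (0 : ℝ), 0 ≤ F u x := by
    intro x hx u hu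
    have hu0 : (0 : ℝ) < u := hu
    have h3 := hnn (4 * Real.pi ^ 2 * (x * (1 - x)) * u) (mul_pos (hc x hx) hu0).le
    exact mul_nonneg (Real.rpow_nonneg hu0.le _) h3
  have hbint : IntegrableOn (fun x : ℝ => (4 * Real.pi ^ 2 * (x * (1 - x))) ^ σ * M)
      (Set.Ioo 0 1) := by
    have h3 : Continuous (fun x : ℝ => (4 * Real.pi ^ 2 * (x * (1 - x))) ^ σ * M) := by
      have h4 : Continuous (fun x : ℝ => 4 * Real.pi ^ 2 * (x * (1 - x))) := by fun_prop
      exact (h4.rpow_const fun x => Or.inr hσ0.le).mul continuous_const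
    exact (h3.continuousOn.integrableOn_Icc (a := 0) (b := 1)).mono_set Set.Ioo_subset_Icc_self
  have hint : Integrable (Function.uncurry F)
      ((volume.restrict (Set.Ioi (0 : ℝ))).prod (volume.restrict (Set.Ioo (0 : ℝ) 1))) := by
    rw [integrable_prod_iff' hFm.aestronglyMeasurable]
    constructor
    · exact (ae_restrict_iff' measurableSet_Ioo).2 (Eventually.of_forall fun x hx => (hin x hx).1)
    · refine (integrableOn_congr_fun ?_ measurableSet_Ioo).2 hbint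
      intro x hx
      simp only
      rw [← (hin x hx).2]
      refine setIntegral_congr_fun measurableSet_Ioi fun u hu => ?_
      exact Real.norm_of_nonneg (hFnn x hx u hu)
  have s2 : ∫ u in Set.Ioi (0 : ℝ), ∫ x in Set.Ioo (0 : ℝ) 1, F u x =
      ∫ x in Set.Ioo (0 : ℝ) 1, ∫ u in Set.Ioi (0 : ℝ), F u x :=
    integral_integral_swap hint
  have s3 : ∫ x in Set.Ioo (0 : ℝ) 1, ∫ u in Set.Ioi (0 : ℝ), F u x =
      (4 * Real.pi ^ 2) ^ σ * M * ∫ x in Set.Ioo (0 : ℝ) 1, x ^ (σ + 1 - 1) * (1 - x) ^ (σ + 1 - 1) := by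
    rw [← integral_const_mul]
    refine setIntegral_congr_fun measurableSet_Ioo fun x hx => ?_
    rw [(hin x hx).2]
    have hx1 : 0 ≤ 1 - x := by linarith [hx.2]
    rw [Real.mul_rpow (by positivity) (mul_nonneg hx.1.le hx1), Real.mul_rpow hx.1.le hx1,
      add_sub_cancel_right]
    ring
  rw [s1, s2, s3, beta_real (σ + 1) (σ + 1) (by linarith) (by linarith), hM]
  have e1 : β + σ = ((K - 1 : ℕ) : ℝ) + 1 := by
    rw [hβd, hσ, Nat.cast_sub (by omega : 1 ≤ K)]; push_cast; ring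
  have e2 : σ + 1 + (σ + 1) = ((2 * v : ℕ) : ℝ) + 1 := by
    rw [hσ]; push_cast; ring
  have e3 : σ + 1 = (v : ℝ) + 1 / 2 := by rw [hσ]; ring
  rw [e1, e2, Real.Gamma_nat_eq_factorial, Real.Gamma_nat_eq_factorial, e3]
  have e4 : Real.Gamma ((v : ℝ) + 1 / 2) * Real.Gamma (-σ) = Real.pi * (-1) ^ v := by
    have h3 := Real.Gamma_mul_Gamma_one_sub ((v : ℝ) + 1 / 2)
    have h4 : 1 - ((v : ℝ) + 1 / 2) = -σ := by rw [hσ]; ring
    have h5 : Real.sin (Real.pi * ((v : ℝ) + 1 / 2)) = (-1) ^ v := by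
      rw [show Real.pi * ((v : ℝ) + 1 / 2) = (v : ℝ) * Real.pi + Real.pi / 2 by ring,
        Real.sin_add_pi_div_two, Real.cos_nat_mul_pi]
    rw [h4, h5] at h3
    rw [h3]
    have h6 : ((-1 : ℝ) ^ v) * (-1) ^ v = 1 := by
      rw [← mul_pow]; simp
    have h7 : ((-1 : ℝ) ^ v) ≠ 0 := pow_ne_zero _ (by norm_num)
    rw [div_eq_iff h7, mul_assoc, h6, mul_one]
  have e5 : v - 1 + 1 = v := by omega
  rw [e5]
  have h6 : ((-1 : ℝ) ^ v) * (-1) ^ v = 1 := by
    rw [← mul_pow]; simp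
  have g1 : Real.Gamma β ≠ 0 := (Real.Gamma_pos_of_pos hβ).ne'
  have g2 : ((2 * v).factorial : ℝ) ≠ 0 := by positivity
  calc (4 * Real.pi ^ 2) ^ σ * ((-1) ^ v * Real.Gamma (-σ) * ((K - 1).factorial : ℝ) / Real.Gamma β) *
      (Real.Gamma ((v : ℝ) + 1 / 2) * Real.Gamma ((v : ℝ) + 1 / 2) / ((2 * v).factorial : ℝ)) =
      (4 * Real.pi ^ 2) ^ σ * (Real.Gamma ((v : ℝ) + 1 / 2) * ((-1) ^ v *
        (Real.Gamma ((v : ℝ) + 1 / 2) * Real.Gamma (-σ))) * ((K - 1).factorial : ℝ)) /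
        (((2 * v).factorial : ℝ) * Real.Gamma β) := by
        field_simp
    _ = _ := by
        rw [e4]
        congr 1
        linear_combination ((4 * Real.pi ^ 2) ^ σ * (Real.Gamma ((v : ℝ) + 1 / 2) *
          Real.pi * ((K - 1).factorial : ℝ))) * h6

end Pool.Agent.H269
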