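import Pool.Agent.H269.GX.X131

/-!
# Value of the constant in the dichotomy (MP_f2af60_mp)
-/

set_option autoImplicit false

open MeasureTheory Filter Topology Complex
open scoped InnerProductSpace ENNReal NNReal

namespace Pool.Agent.H269

theorem gam_half (v : ℕ) :
    Real.Gamma ((v : ℝ) + 1 / 2) * (4 ^ v * (v.factorial : ℝ)) =
      ((2 * v).factorial : ℝ) * Real.sqrt Real.pi := by
  induction v with
  | zero =>
    have h : Real.Gamma (1 / 2) = Real.sqrt Real.pi := Real.Gamma_one_half_eq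
    simp only [Nat.cast_zero, zero_add, pow_zero, Nat.factorial_zero, Nat.cast_one, mul_one,
      mul_zero, one_mul]
    exact h
  | succ w ih =>
    have h1 : ((w + 1 : ℕ) : ℝ) + 1 / 2 = ((w : ℝ) + 1 / 2) + 1 := by
      push_cast; ring
    have h0 : ((w : ℝ) + 1 / 2) ≠ 0 := by positivity
    rw [h1, Real.Gamma_add_one h0, Nat.factorial_succ]
    have h2 : 2 * (w + 1) = (2 * w + 1) + 1 := by ring
    rw [h2, Nat.factorial_succ, Nat.factorial_succ]
    push_cast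
    have h3 : ((w : ℝ) + 1 / 2) * Real.Gamma ((w : ℝ) + 1 / 2) *
        (4 ^ (w + 1) * (((w : ℝ) + 1) * (w.factorial : ℝ))) =
        ((w : ℝ) + 1 / 2) * 4 * ((w : ℝ) + 1) *
          (Real.Gamma ((w : ℝ) + 1 / 2) * (4 ^ w * (w.factorial : ℝ))) := by
      rw [pow_succ]; ring
    rw [h3, ih]
    ring

theorem cdich_eq (v : ℕ) (hv : 1 ≤ v) :
    cdich v = 2 ^ (2 * v + 5) * (v.factorial : ℝ) / Real.pi ^ (v - 1) := by
  have hK : 2 * v + 3 ≤ 10 * (v + 1) ^ 2 := by nlinarith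
  unfold cdich
  rw [gg_int v (10 * (v + 1) ^ 2) hv hK]
  set G := Real.Gamma (((10 * (v + 1) ^ 2 : ℕ) : ℝ) + 1 / 2 - v) with hG
  have hGpos : 0 < G := by
    apply Real.Gamma_pos_of_pos
    have : ((2 * v + 3 : ℕ) : ℝ) ≤ ((10 * (v + 1) ^ 2 : ℕ) : ℝ) := by exact_mod_cast hK
    push_cast at this ⊢
    have hv0 : (0 : ℝ) ≤ v := Nat.cast_nonneg v
    linarith
  set F := ((10 * (v + 1) ^ 2 - 1).factorial : ℝ) with hF
  have hFpos : 0 < F := by
    rw [hF]; exact_mod_cast Nat.factorial_pos _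
  set s := Real.sqrt Real.pi with hs
  have hspos : 0 < s := Real.sqrt_pos.mpr Real.pi_pos
  have hs2 : s * s = Real.pi := Real.mul_self_sqrt Real.pi_pos.le
  have hA : (4 * Real.pi) ^ (-((2 * (v : ℝ) + 3) / 2)) = ((4 * Real.pi) ^ (v + 1) * (2 * s))⁻¹ := by
    rw [Real.rpow_neg (by positivity)]
    congr 1
    have e : (2 * (v : ℝ) + 3) / 2 = ((v + 1 : ℕ) : ℝ) + 1 / 2 := by push_cast; ring
    rw [e, Real.rpow_add (by positivity), Real.rpow_natCast, ← Real.sqrt_eq_rpow,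
      Real.sqrt_mul (by norm_num), ← hs]
    have h4 : Real.sqrt 4 = 2 := by
      rw [show (4 : ℝ) = 2 ^ 2 by norm_num]; exact Real.sqrt_sq (by norm_num)
    rw [h4]
  have hB : (4 * Real.pi ^ 2) ^ ((v : ℝ) - 1 / 2) = (4 * Real.pi ^ 2) ^ v / (2 * Real.pi) := by
    rw [Real.rpow_sub (by positivity), Real.rpow_natCast, ← Real.sqrt_eq_rpow]
    congr 1
    rw [show 4 * Real.pi ^ 2 = (2 * Real.pi) ^ 2 by ring]
    exact Real.sqrt_sq (by positivity)
  have hΓ := gam_half v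
  rw [← hs] at hΓ
  set D := ((2 * v).factorial : ℝ) with hD
  have hDpos : 0 < D := by
    rw [hD]; exact_mod_cast Nat.factorial_pos _
  have hvpos : (0 : ℝ) < (v.factorial : ℝ) := by exact_mod_cast Nat.factorial_pos _
  have hΓ' : Real.Gamma ((v : ℝ) + 1 / 2) = D * s / (4 ^ v * (v.factorial : ℝ)) := by
    rw [eq_div_iff (by positivity)]
    exact hΓ
  rw [hA, hB, hΓ']
  obtain ⟨w, rfl⟩ : ∃ w, v = w + 1 := ⟨v - 1, by omega⟩
  have hpi := Real.pi_pos
  have hw : w + 1 - 1 = w := rfl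
  rw [hw]
  rw [eq_div_iff (by positivity)]
  have e2 : (2 : ℝ) ^ (2 * (w + 1) + 5) = 4 ^ (w + 1) * 32 := by
    rw [pow_add, pow_mul]; norm_num
  rw [e2, ← hs2]
  field_simp
  ring

end Pool.Agent.H269

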