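import Pool.Agent.H269.GN.G049

/-!
# Continuation of all matrix elements of the resolvent (MP_f2af60_mp)
-/

set_option autoImplicit false

open MeasureTheory Filter Topology Complex
open scoped InnerProductSpace ENNReal NNReal

namespace Pool.Agent.H269

section OSec

variable {v : ℕ} {R M : ℝ} {V : EV v → ℝ} {A T : ℂ → OpV v R}

/-- every matrix element of the resolvent is meromorphic, with poles only where `1 + T` is not
invertible -/
theorem FamG.matrix_element (F : FamG v R M V A T) (f g : Lp ℂ 2 (muV v R)) :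
    ∃ Φ : ℂ → ℂ, MeromorphicOn Φ Set.univ ∧
      (∀ (μ : ℂ) (Y : OpV v R), (1 + T μ) * Y = 1 → Y * (1 + T μ) = 1 →
        Φ μ = ⟪g, A μ (Y f)⟫_ℂ) ∧
      ∀ l : ℂ, IsUnit (1 + T l) → 0 ≤ meromorphicOrderAt Φ l := by
  classical
  have : Fact ((2 : ℝ≥0∞) ≠ ⊤) := ⟨by norm_num⟩
  have : TopologicalSpace.SeparableSpace (Lp ℂ 2 (muV v R)) := inferInstance
  obtain ⟨ι, hι, ⟨b⟩⟩ := exists_countable_basis (Lp ℂ 2 (muV v R))
  have hKd : Differentiable ℂ (fun μ => Kp (2 * (2 * v + 3)) (T μ)) :=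
    Kp_differentiable _ F.differentiable.2
  have hHS := P3517_HS F b
  have hdd : Differentiable ℂ (fun z => det2 b (Kp (2 * (2 * v + 3)) (T z))) :=
    det2_entire hKd hHS
  have hinv' : ∀ μ, IsUnit (1 + T μ) → det2 b (Kp (2 * (2 * v + 3)) (T μ)) ≠ 0 := by
    intro μ hμ
    obtain ⟨c, hc⟩ := hHS ‖μ‖
    rw [← isUnit_Kp (2 * (2 * v + 3))] at hμ
    exact det2_ne_zero (hc μ le_rfl) hμ
  obtain ⟨N, hN1, hN2⟩ := P3517_N F b f g
  refine ⟨fun μ => N μ / det2 b (Kp (2 * (2 * v + 3)) (T μ)), ?_, ?_, ?_⟩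
  · intro z _
    exact (hN1.analyticAt z).meromorphicAt.div (hdd.analyticAt z).meromorphicAt
  · intro μ Y h1 h2
    have h3 := hinv' μ ⟨⟨1 + T μ, Y, h1, h2⟩, rfl⟩
    show N μ / det2 b (Kp (2 * (2 * v + 3)) (T μ)) = _
    rw [div_eq_iff h3]
    exact (hN2 μ Y h1 h2).symm
  · intro l hl
    exact ((hN1.analyticAt l).div (hdd.analyticAt l) (hinv' l hl)).meromorphicOrderAt_nonneg

end OSec

end Pool.Agent.H269
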