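import Pool.Agent.H269.GX.X111
import Pool.Agent.H269.GX.X132
import Pool.Agent.H269.GX.X141

/-!
# Finitely many resonances in odd dimension: the dichotomy with a bound for their number
(MP_f2af60_mp)
-/

set_option autoImplicit false

open MeasureTheory Filter Topology Complex
open scoped InnerProductSpace ENNReal NNReal FourierTransform

namespace Pool.Agent.H269

section OSec

variable {v : ℕ} {R M : ℝ} {V : EV v → ℝ} {A T : ℂ → OpV v R}

theorem FamG.dichotomy3 (F : FamG v R M V A T) (hv : 1 ≤ v)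
    (hne : ¬ (V =ᵐ[volume] 0)) (hinf : {l : ℂ | ¬ IsUnit (1 + T l)}.Finite) :
    Even v ∧ ∃ N : ℕ, 1 ≤ N ∧ hinf.toFinset.card ≤ N ∧ Tendsto (fun κ : ℝ =>
      (∫ ξ in {ξ : EV v | ‖ξ‖ ≤ κ}, ‖ξ‖ ^ (2 * v - 1) * ‖Vf V ξ‖ ^ 2) / Real.log κ)
      atTop (𝓝 (cdich v * N)) := by
  have P : PotG v R (M + 1) V := ⟨F.hR, by linarith [F.hM], F.meas,
    fun x => (F.bdd x).trans (by linarith), F.supp⟩
  have h2top : Fact ((2 : ℝ≥0∞) ≠ ⊤) := ⟨by norm_num⟩
  have hsep : TopologicalSpace.SeparableSpace (Lp ℂ 2 (muV v R)) := inferInstance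
  obtain ⟨ι, hι, ⟨b⟩⟩ := exists_countable_basis (Lp ℂ 2 (muV v R))
  classical
  have hZ : ∀ l, ¬ IsUnit (1 + T l) → l ∈ hinf.toFinset := fun l hl => by
    rw [Set.Finite.mem_toFinset]; exact hl
  set K : ℕ := 10 * (v + 1) ^ 2 with hKdef
  have hK : v * (4 * v + 5) < K := by rw [hKdef]; nlinarith
  have hK' : 2 * v + 3 ≤ K := by rw [hKdef]; nlinarith
  obtain ⟨d, c, e, N₀, C, s₀, hs₀, hNc, hcard, hstar⟩ := F.star3 hv b hinf.toFinset hZ K hK
  set N : ℝ := (N₀ : ℝ) * ((1 / 2) * ((K - 1).factorial : ℝ)) with hNdef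
  have hN0 : 0 ≤ N := by rw [hNdef]; positivity
  -- the induction
  have hint : ∀ m : ℕ, m ≤ v - 1 → Integrable (fun ξ : EV v => ‖ξ‖ ^ (2 * m) * ‖Vf V ξ‖ ^ 2) := by
    intro m
    induction m with
    | zero =>
      intro _
      simpa using (quad_heat v R (M + 1) V P).1
    | succ m ih =>
      intro hm
      have hPm := ih (by omega)
      obtain ⟨α₀, ρ, c₁, hc₁, _, hρ, h1, _, _, C', s₁, hs₁, h6⟩ :=
        boot_step v K m hv (by omega) hK hK' R (M + 1) V P hPm d c e N C s₀ hs₀ hstar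
      refine boot_next v m R (M + 1) V P K ρ c₁ hc₁ h1 C' s₁ hs₁ ?_
      intro s hs
      have h7 := h6 s hs
      rw [if_neg (by omega), add_zero, abs_mul, abs_pow, abs_neg, abs_one, one_pow, one_mul] at h7
      exact (le_abs_self _).trans h7
  -- the constant is not zero
  have hN1 : N₀ ≠ 0 := by
    intro hN
    have hc0 : c (v - 1) = 0 := hNc hN
    obtain ⟨α₀, ρ, c₁, hc₁, hα, _, _, _, hm0, _⟩ :=
      boot_step v K 0 hv (by omega) hK hK' R (M + 1) V P (hint 0 (by omega)) d c e N C s₀ hs₀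
        hstar
    have h12 := hm0 rfl
    rw [hc0] at h12
    simp only [ite_self] at h12
    exact hne (hα (by linarith))
  have hNpos : 0 < N := by
    rw [hNdef]
    have : (0 : ℝ) < N₀ := by exact_mod_cast Nat.pos_of_ne_zero hN1
    positivity
  -- the last step
  obtain ⟨α₀, ρ, c₁, hc₁, _, hρ, h1, h5, _, hform, C', s₁, hs₁, h6⟩ :=
    boot_step2 v K (v - 1) hv le_rfl hK hK' R (M + 1) V P (hint (v - 1) le_rfl) d c e N C s₀ hs₀
      hstar
  have hcast : ((v - 1 : ℕ) : ℝ) = (v : ℝ) - 1 := by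
    rw [Nat.cast_sub hv]; simp
  have hlim : Tendsto (fun s : ℝ => C' * s ^ (-(1 / 2) : ℝ)) atTop (𝓝 0) := by
    have := (tendsto_rpow_neg_atTop (show (0 : ℝ) < 1 / 2 by norm_num)).const_mul C'
    rwa [mul_zero] at this
  have h7 : ∀ s, s₁ ≤ s → |(-1) ^ (v - 1) * (s ^ (K : ℝ) * ρ s) + N| ≤ C' * s ^ (-(1 / 2) : ℝ) := by
    intro s hs
    have h8 := h6 s hs
    rw [if_pos rfl, hcast] at h8
    have e1 : (v : ℝ) - 3 / 2 - ((v : ℝ) - 1) = -(1 / 2) := by ring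
    rw [e1] at h8
    exact h8
  have hev : Even v := by
    rw [← Nat.not_odd_iff_even]
    intro hodd
    have hev : Even (v - 1) := by
      obtain ⟨k, hk⟩ := hodd
      exact ⟨k, by omega⟩
    have hle : N ≤ 0 := by
      refine ge_of_tendsto hlim ?_
      filter_upwards [eventually_ge_atTop s₁] with s hs
      have h8 := h7 s hs
      rw [hev.neg_one_pow, one_mul] at h8
      have hs0 : 0 < s := by linarith
      have h9 : 0 ≤ s ^ (K : ℝ) * ρ s := mul_nonneg (Real.rpow_nonneg hs0.le _) (hρ s hs0)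
      linarith [le_abs_self (s ^ (K : ℝ) * ρ s + N)]
    linarith
  refine ⟨hev, N₀, Nat.one_le_iff_ne_zero.2 hN1, hcard fun z hz => by simpa using hz, ?_⟩
  have hodd : Odd (v - 1) := by
    obtain ⟨k, hk⟩ := hev
    exact ⟨k - 1, by omega⟩
  -- the limit of the remainder
  have hρlim : Tendsto (fun s : ℝ => s ^ (K : ℝ) * ρ s) atTop (𝓝 N) := by
    rw [tendsto_iff_norm_sub_tendsto_zero]
    refine squeeze_zero' (Eventually.of_forall fun s => norm_nonneg _) ?_ hlim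
    filter_upwards [eventually_ge_atTop s₁] with s hs
    have h8 := h7 s hs
    rw [hodd.neg_one_pow] at h8
    rw [Real.norm_eq_abs, ← abs_neg]
    refine le_trans (le_of_eq ?_) h8
    congr 1; ring
  set c₀ : ℝ := (1 / 2) * ((4 * Real.pi) ^ (-((2 * (v : ℝ) + 3) / 2)) *
        Real.Gamma ((K : ℝ) + 1 / 2 - v)) with hc₀def
  have hβ : 0 < (K : ℝ) + 1 / 2 - v := by
    have : (2 * (v : ℝ) + 3) ≤ K := by exact_mod_cast hK'
    have h0 : (0 : ℝ) ≤ v := Nat.cast_nonneg v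
    linarith
  have hc₀ : 0 < c₀ := by
    rw [hc₀def]
    have := Real.Gamma_pos_of_pos hβ
    have hp := Real.pi_pos
    positivity
  have hf : ∀ s : ℝ, 0 < s → ∫ ξ : EV v, (‖ξ‖ ^ (2 * v - 1) * ‖Vf V ξ‖ ^ 2) *
      gg v K (‖ξ‖ ^ 2 / s) = c₀⁻¹ * (s ^ (K : ℝ) * ρ s) := by
    intro s hs
    rw [← rho_profile v K hv V s hs, hform s]
    field_simp
  obtain ⟨cg, Cg, hcg, hCg, hgg⟩ := gg_bounds v K hv hK'
  have hQm : AEStronglyMeasurable (fun ξ : EV v => ‖Vf V ξ‖ ^ 2) volume :=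
    (quad_heat v R (M + 1) V P).1.aestronglyMeasurable
  have hwm : AEStronglyMeasurable (fun ξ : EV v => ‖ξ‖ ^ (2 * v - 1) * ‖Vf V ξ‖ ^ 2) volume :=
    AEStronglyMeasurable.mul (by fun_prop) hQm
  have hP1 := hint (v - 1) le_rfl
  have hlocal : ∀ S : ℝ, 0 ≤ S → IntegrableOn (fun ξ : EV v => ‖ξ‖ ^ (2 * v - 1) * ‖Vf V ξ‖ ^ 2)
      {ξ : EV v | ‖ξ‖ ^ 2 ≤ S} := by
    intro S hS
    refine ((hP1.const_mul (S + 1)).integrableOn (s := {ξ : EV v | ‖ξ‖ ^ 2 ≤ S})).mono'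
      hwm.restrict ?_
    rw [ae_restrict_iff' (measurableSet_le (by fun_prop) measurable_const)]
    filter_upwards with ξ hξ
    have hξ' : ‖ξ‖ ^ 2 ≤ S := hξ
    rw [Real.norm_of_nonneg (by positivity)]
    have e1 : ‖ξ‖ ^ (2 * v - 1) = ‖ξ‖ * ‖ξ‖ ^ (2 * (v - 1)) := by
      rw [← pow_succ']; congr 1; omega
    rw [e1, mul_assoc]
    refine mul_le_mul_of_nonneg_right ?_ (by positivity)
    nlinarith [sq_nonneg (‖ξ‖ - 1), norm_nonneg ξ]
  have hggint : ∀ s : ℝ, 1 ≤ s → Integrable (fun ξ : EV v =>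
      (‖ξ‖ ^ (2 * v - 1) * ‖Vf V ξ‖ ^ 2) * gg v K (‖ξ‖ ^ 2 / s)) := by
    intro s hs
    have hs0 : 0 < s := by linarith
    refine (hP1.const_mul (Cg * s ^ (1 / 2 : ℝ))).mono' (hwm.mul ((gg_meas v K).comp
      (by fun_prop : Measurable fun ξ : EV v => ‖ξ‖ ^ 2 / s)).aestronglyMeasurable) ?_
    have h0 : ∀ᵐ ξ ∂(volume : Measure (EV v)), ξ ≠ 0 := by
      rw [ae_iff]; simp
    filter_upwards [h0] with ξ hξ
    have hξ' : 0 < ‖ξ‖ := norm_pos_iff.2 hξ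
    have hq : 0 < ‖ξ‖ ^ 2 / s := by positivity
    obtain ⟨g1, g2⟩ := hgg _ hq
    have g0 : 0 ≤ gg v K (‖ξ‖ ^ 2 / s) := le_trans (by positivity) g1
    rw [Real.norm_of_nonneg (by positivity)]
    have g3 : gg v K (‖ξ‖ ^ 2 / s) ≤ Cg * (s ^ (1 / 2 : ℝ) * ‖ξ‖⁻¹) := by
      refine g2.trans (mul_le_mul_of_nonneg_left ((min_le_right _ _).trans (le_of_eq ?_)) hCg.le)
      rw [Real.div_rpow (by positivity) hs0.le, Real.rpow_neg hs0.le, div_inv_eq_mul, mul_comm,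
        ← Real.rpow_natCast ‖ξ‖ 2, ← Real.rpow_mul hξ'.le]
      congr 1
      rw [← Real.rpow_neg_one]
      norm_num
    have e1 : ‖ξ‖ ^ (2 * v - 1) = ‖ξ‖ * ‖ξ‖ ^ (2 * (v - 1)) := by
      rw [← pow_succ']; congr 1; omega
    calc (‖ξ‖ ^ (2 * v - 1) * ‖Vf V ξ‖ ^ 2) * gg v K (‖ξ‖ ^ 2 / s)
        ≤ (‖ξ‖ ^ (2 * v - 1) * ‖Vf V ξ‖ ^ 2) * (Cg * (s ^ (1 / 2 : ℝ) * ‖ξ‖⁻¹)) :=
          mul_le_mul_of_nonneg_left g3 (by positivity)
      _ = Cg * s ^ (1 / 2 : ℝ) * (‖ξ‖ ^ (2 * (v - 1)) * ‖Vf V ξ‖ ^ 2) := by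
          rw [e1]; field_simp
  have hlim2 : Tendsto (fun s : ℝ => ∫ ξ : EV v, (‖ξ‖ ^ (2 * v - 1) * ‖Vf V ξ‖ ^ 2) *
      gg v K (‖ξ‖ ^ 2 / s)) atTop (𝓝 (c₀⁻¹ * N)) := by
    refine (hρlim.const_mul c₀⁻¹).congr' ?_
    filter_upwards [eventually_gt_atTop 0] with s hs
    exact (hf s hs).symm
  have hfin := (log_average (μ := (volume : Measure (EV v)))
    (fun ξ : EV v => ‖ξ‖ ^ (2 * v - 1) * ‖Vf V ξ‖ ^ 2) (fun ξ => ‖ξ‖ ^ 2) hwm
    (fun ξ => by positivity) (by fun_prop) (fun ξ => by positivity)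
    (fun ξ hξ => by
      have : ‖ξ‖ = 0 := by simpa using hξ
      rw [this, zero_pow (by omega), zero_mul])
    (gg v K) (gg_meas v K) cg Cg hcg (fun u hu => (hgg u hu).1) (fun u hu => (hgg u hu).2)
    hggint (hlocal 1 zero_le_one) _ hlim2).2
  -- back to the radius
  have hsq : Tendsto (fun κ : ℝ => κ ^ 2) atTop atTop := tendsto_pow_atTop (by norm_num)
  have h10 := (hfin.comp hsq).const_mul 2
  have hval : 2 * (c₀⁻¹ * N / ∫ u in Set.Ioi (0 : ℝ), gg v K u / u) = cdich v * N₀ := by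
    rw [hNdef]
    unfold cdich
    rw [← hKdef, ← hc₀def]
    ring
  rw [hval] at h10
  refine h10.congr' ?_
  filter_upwards [eventually_gt_atTop 1] with κ hκ
  have hset : {ξ : EV v | ‖ξ‖ ^ 2 ≤ κ ^ 2} = {ξ : EV v | ‖ξ‖ ≤ κ} := by
    ext ξ
    simp only [Set.mem_ofPred_eq]
    exact ⟨fun h => le_of_sq_le_sq h (by linarith), fun h => pow_le_pow_left₀ (norm_nonneg _) h 2⟩
  simp only [Function.comp_apply]
  rw [hset, Real.log_pow]
  have : Real.log κ ≠ 0 := (Real.log_pos hκ).ne'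
  push_cast
  field_simp

end OSec

end Pool.Agent.H269
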